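import Pool.Agent.H67.EE.Core

/-! # An explicit irrationality measure of e (helper67), for MP_58ae59_nt -/

set_option autoImplicit false

namespace Pool.Agent.H67.EF

open Pool.Agent.H76.EE Pool.Agent.H67.EE

theorem B_six (n : ℕ) : 6 ^ n ≤ B (n + 1) := by
  induction n with
  | zero => simp [B]
  | succ n ih =>
    rw [B_succ, pow_succ]
    have h1 : 6 ^ n * 6 ≤ (4 * n + 6) * B (n + 1) := by
      calc 6 ^ n * 6 ≤ B (n + 1) * 6 := Nat.mul_le_mul_right _ ih
        _ ≤ B (n + 1) * (4 * n + 6) := Nat.mul_le_mul_left _ (by omega)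
        _ = (4 * n + 6) * B (n + 1) := by ring
    omega

theorem B_upper (n : ℕ) : B n ≤ (4 * n + 2) ^ n := by
  induction n with
  | zero => simp [B]
  | succ n ih =>
    cases n with
    | zero => simp [B]
    | succ m =>
      rw [B_succ]
      have h1 : B m ≤ B (m + 1) := B_mono m
      calc (4 * m + 6) * B (m + 1) + B m ≤ (4 * m + 7) * B (m + 1) := by nlinarith
        _ ≤ (4 * m + 7) * (4 * (m + 1) + 2) ^ (m + 1) := Nat.mul_le_mul_left _ ih
        _ ≤ (4 * (m + 1 + 1) + 2) * (4 * (m + 1 + 1) + 2) ^ (m + 1) := by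
          apply Nat.mul_le_mul (by omega)
          apply Nat.pow_le_pow_left
          omega
        _ = (4 * (m + 1 + 1) + 2) ^ (m + 1 + 1) := by rw [pow_succ (4 * (m + 1 + 1) + 2) (m + 1)]; ring

/-- an upper bound for the logarithm of the index -/
theorem index_le (n q : ℕ) (h : B (n + 1) ≤ 4 * q) (hq : 1 ≤ q) :
    (n : ℝ) ≤ 1.5 + Real.log q := by
  have hqr : (0 : ℝ) < q := by exact_mod_cast hq
  have h1 : ((6 : ℝ)) ^ n ≤ 4 * q := by
    exact_mod_cast (B_six n).trans h
  have h2 : (n : ℝ) * Real.log 6 ≤ Real.log 4 + Real.log q := by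
    rw [← Real.log_pow, ← Real.log_mul (by norm_num) hqr.ne']
    exact Real.log_le_log (by positivity) h1
  have h3 : (1 : ℝ) ≤ Real.log 6 := by
    rw [Real.le_log_iff_exp_le (by norm_num)]
    have := Real.exp_one_lt_d9
    linarith
  have h4 : Real.log 4 ≤ 1.5 := by
    have h5 : (4 : ℝ) = 2 * 2 := by norm_num
    rw [h5, Real.log_mul (by norm_num) (by norm_num)]
    have := Real.log_two_lt_d9
    linarith
  have h6 : (0 : ℝ) ≤ n := Nat.cast_nonneg n
  nlinarith

/-- the measure -/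
theorem meas (q : ℕ) (hq : 1 ≤ q) (p : ℤ) :
    1 / (104 * q * (1 + Real.log q)) ≤ |(q : ℝ) * e - p| := by
  have hqr : (1 : ℝ) ≤ q := by exact_mod_cast hq
  have hq0 : (0 : ℝ) < q := by linarith
  have hlog : 0 ≤ Real.log q := Real.log_nonneg hqr
  have hex := exists_small q
  classical
  obtain ⟨n, hn⟩ : ∃ n, n = Nat.find hex := ⟨_, rfl⟩
  have hn1 : (q : ℝ) * E (n + 1) < 1 / 2 := by rw [hn]; exact Nat.find_spec hex
  have hn2 : (q : ℝ) * E (n + 2) < 1 / 2 := by
    refine lt_of_le_of_lt ?_ hn1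
    exact mul_le_mul_of_nonneg_left (E_le (n + 1)) hq0.le
  have hBn : B (n + 1) ≤ 4 * q := by
    rcases Nat.eq_zero_or_pos n with h0 | h0
    · rw [h0]
      have : B (0 + 1) = 1 := by simp [B]
      rw [this]
      omega
    · obtain ⟨k, rfl⟩ : ∃ k, n = k + 1 := ⟨n - 1, by omega⟩
      have hmin := Nat.find_min hex (m := k) (by omega)
      push Not at hmin
      have hb := BE_le (k + 1)
      have hEp := E_pos (k + 1)
      have hBp := Bpos (k + 1 + 1)
      have : (B (k + 1 + 1) : ℝ) ≤ 4 * q := by nlinarith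
      exact_mod_cast this
  have hBnr : (B (n + 1) : ℝ) ≤ 4 * q := by exact_mod_cast hBn
  have hidx := index_le n q hBn hq
  have hBn2 : (B (n + 2) : ℝ) ≤ 52 * q * (1 + Real.log q) := by
    have h1 : (B (n + 2) : ℝ) ≤ (4 * n + 7) * B (n + 1) := by
      have h2 : B (n + 2) ≤ (4 * n + 7) * B (n + 1) := by
        rw [B_succ]
        have := B_mono n
        nlinarith
      exact_mod_cast h2
    have h3 : (4 * (n : ℝ) + 7) * B (n + 1) ≤ (13 + 4 * Real.log q) * (4 * q) := by
      apply mul_le_mul (by linarith) hBnr (Bpos _).le (by linarith)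
    nlinarith [mul_nonneg hq0.le hlog]
  have hBn1 : (B (n + 1) : ℝ) ≤ 52 * q * (1 + Real.log q) := by
    refine le_trans ?_ hBn2
    exact_mod_cast B_mono (n + 1)
  -- one of the two determinants is not zero
  have hgen : ∀ m : ℕ, (q : ℝ) * E m < 1 / 2 → (B m : ℝ) ≤ 52 * q * (1 + Real.log q) →
      (q : ℤ) * A m - p * B m ≠ 0 → 1 / (104 * q * (1 + Real.log q)) ≤ |(q : ℝ) * e - p| := by
    intro m hm1 hm2 hm3
    have hY := Y_bound m (q : ℤ) p (by exact_mod_cast hq0) (|(q : ℝ) * (q * e - p)|) (by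
      push_cast; exact le_rfl)
    have hY1 : (1 : ℝ) ≤ |(((q : ℤ) * A m - p * B m : ℤ) : ℝ)| := by
      rw [← Int.cast_abs]
      exact_mod_cast Int.one_le_abs hm3
    have h2 : (1 : ℝ) ≤ B m * (|(q : ℝ) * (q * e - p)| / q) + q * E m := by
      refine hY1.trans ?_
      exact_mod_cast hY
    have h3 : |(q : ℝ) * (q * e - p)| / q = |(q : ℝ) * e - p| := by
      rw [abs_mul, abs_of_pos hq0]
      field_simp
    rw [h3] at h2
    have h4 : 1 / 2 ≤ (B m : ℝ) * |(q : ℝ) * e - p| := by linarith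
    have h5 : (B m : ℝ) * |(q : ℝ) * e - p| ≤ 52 * q * (1 + Real.log q) * |(q : ℝ) * e - p| :=
      mul_le_mul_of_nonneg_right hm2 (abs_nonneg _)
    rw [div_le_iff₀ (by positivity)]
    linarith
  by_cases h0 : (q : ℤ) * A (n + 1) - p * B (n + 1) = 0
  · refine hgen (n + 2) hn2 hBn2 ?_
    intro h1
    have hd := det (n + 1)
    have hq0' : (0 : ℤ) < q := by exact_mod_cast hq0
    have e1 : (q : ℤ) * ((A (n + 1 + 1) : ℤ) * B (n + 1) - A (n + 1) * B (n + 1 + 1)) = 0 := by
      have e2 : (q : ℤ) * A (n + 1) = p * B (n + 1) := by linarith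
      have e3 : (q : ℤ) * A (n + 1 + 1) = p * B (n + 1 + 1) := by
        have : (q : ℤ) * A (n + 2) = p * B (n + 2) := by linarith
        exact this
      calc (q : ℤ) * ((A (n + 1 + 1) : ℤ) * B (n + 1) - A (n + 1) * B (n + 1 + 1)) =
          (q * A (n + 1 + 1)) * B (n + 1) - (q * A (n + 1)) * B (n + 1 + 1) := by ring
        _ = 0 := by rw [e2, e3]; ring
    rw [hd] at e1
    rcases neg_one_pow_eq_or ℤ (n + 1) with h | h
    · rw [h] at e1; omega
    · rw [h] at e1; omega
  · exact hgen (n + 1) hn1 hBn1 h0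

/-- the measure, weaker form -/
theorem meas' (q : ℕ) (hq : 1 ≤ q) (p : ℤ) :
    1 / (104 * (q : ℝ) ^ 2) ≤ |(q : ℝ) * e - p| := by
  have hqr : (1 : ℝ) ≤ q := by exact_mod_cast hq
  refine le_trans ?_ (meas q hq p)
  have h1 := Real.log_le_sub_one_of_pos (by linarith : (0 : ℝ) < q)
  have h2 := Real.log_nonneg hqr
  apply one_div_le_one_div_of_le (by positivity)
  nlinarith

end Pool.Agent.H67.EF
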