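import Pool.Agent.H67.EF.Meas

/-! # Limit values, explicit form (helper67), for MP_58ae59_nt -/

set_option autoImplicit false

namespace Pool.Agent.H67.EF

open Pool.Agent.H76.EE Pool.Agent.H67.EE

/-- explicit form of the theorem on the limit values of `Q (Q e - P)` -/
theorem base (L M R η : ℝ) (n0 : ℕ) (hM1 : 1 ≤ M) (hR : R = 6 * M + 2) (hη : 0 < η)
    (hgap : ∀ z : ℤ, η ≤ |(z : ℝ) / 2 - L|) (hn0 : 8 * M * R ^ 2 / η + 4 * R ^ 2 < n0)
    (Q P : ℕ) (hQ : 104 * M * (B (n0 + 3) : ℝ) ^ 2 < Q) (hval : |(Q : ℝ) * (Q * e - P)| ≤ M)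
    (hQP : |(Q : ℝ) * (Q * e - P) - L| < η / 2) :
    ∃ n G : ℕ, Q = G * B n ∧ P = G * A n := by
  have hR0 : 0 < R := by rw [hR]; linarith
  obtain ⟨W, hW⟩ : ∃ W : ℝ, W = (B (n0 + 3) : ℝ) := ⟨_, rfl⟩
  have hW1 : (1 : ℝ) ≤ W := by rw [hW]; exact_mod_cast (B_pos (n0 + 3)).1
  rw [← hW] at hQ
  have hQ0' : (0 : ℝ) < Q := by
    refine lt_of_le_of_lt ?_ hQ
    positivity
  have hQn : 0 < Q := by exact_mod_cast hQ0'
  -- primitive part
  obtain ⟨g, hg⟩ : ∃ g, g = Nat.gcd Q P := ⟨_, rfl⟩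
  have hgpos : 0 < g := by rw [hg]; exact Nat.gcd_pos_of_pos_left _ hQn
  obtain ⟨q, hq⟩ : ∃ q, Q = g * q := hg ▸ Nat.gcd_dvd_left Q P
  obtain ⟨p, hp⟩ : ∃ p, P = g * p := hg ▸ Nat.gcd_dvd_right Q P
  have hcop : Nat.Coprime q p := by
    have h1 : Nat.gcd (g * q) (g * p) = g := by rw [← hq, ← hp, ← hg]
    rw [Nat.gcd_mul_left] at h1
    exact Nat.eq_of_mul_eq_mul_left hgpos (by rw [h1, mul_one])
  have hq0 : 0 < q := by
    rcases Nat.eq_zero_or_pos q with h | h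
    · rw [h] at hq; omega
    · exact h
  have hgr : (0 : ℝ) < g := by exact_mod_cast hgpos
  have hg1 : (1 : ℝ) ≤ g := by exact_mod_cast hgpos
  have hqr : (1 : ℝ) ≤ q := by exact_mod_cast hq0
  have hvq : (Q : ℝ) * (Q * e - P) = (g : ℝ) ^ 2 * (q * (q * e - p)) := by
    rw [hq, hp]; push_cast; ring
  have hvq2 : (g : ℝ) ^ 2 * |(q : ℝ) * (q * e - p)| ≤ M := by
    rw [hvq, abs_mul, abs_of_nonneg (sq_nonneg _)] at hval
    exact hval
  by_cases hY : ∃ n, (q : ℤ) * A n - p * B n = 0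
  · obtain ⟨n, hn⟩ := hY
    have h1 : q * A n = p * B n := by
      have : (q : ℤ) * A n = p * B n := by linarith
      exact_mod_cast this
    have hAB := coprime_AB n
    have h2 : q ∣ B n := by
      have : q ∣ p * B n := ⟨A n, h1.symm⟩
      exact hcop.dvd_of_dvd_mul_left this
    have h3 : B n ∣ q := by
      have : B n ∣ q * A n := ⟨p, by rw [h1]; ring⟩
      exact hAB.symm.dvd_of_dvd_mul_right this
    have h4 : q = B n := Nat.dvd_antisymm h2 h3
    have h5 : p = A n := by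
      rw [h4, mul_comm] at h1
      exact (Nat.eq_of_mul_eq_mul_right (B_pos n).1 h1).symm
    exact ⟨n, g, by rw [hq, h4], by rw [hp, h5]⟩
  · exfalso
    push Not at hY
    have hqbig : B (n0 + 3) < q := by
      by_contra hlt
      push Not at hlt
      have hqW : (q : ℝ) ≤ W := by rw [hW]; exact_mod_cast hlt
      have h1 := meas' q hq0 p
      have h1' : 1 / (104 * (q : ℝ)) ≤ |(q : ℝ) * (q * e - p)| := by
        rw [abs_mul, abs_of_pos (by linarith : (0 : ℝ) < q)]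
        have h2 : (q : ℝ) * (1 / (104 * (q : ℝ) ^ 2)) ≤ q * |(q : ℝ) * e - p| :=
          mul_le_mul_of_nonneg_left (by exact_mod_cast h1) (by linarith)
        refine le_trans (le_of_eq ?_) h2
        field_simp
      have h2 : (g : ℝ) ^ 2 * (1 / (104 * (q : ℝ))) ≤ M := le_trans (by gcongr) hvq2
      have h3 : (g : ℝ) ^ 2 ≤ 104 * M * q := by
        rw [mul_one_div, div_le_iff₀ (by positivity)] at h2
        linarith
      have h4 : (g : ℝ) ≤ 104 * M * W := by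
        have h5 : (g : ℝ) ≤ (g : ℝ) ^ 2 := by nlinarith
        have h6 : 104 * M * q ≤ 104 * M * W := by gcongr
        linarith
      have h5 : (Q : ℝ) ≤ 104 * M * W ^ 2 := by
        rw [hq]
        push_cast
        calc (g : ℝ) * q ≤ (104 * M * W) * W := by gcongr
          _ = 104 * M * W ^ 2 := by ring
      linarith
    have hq7 : 7 ≤ q := by
      have h7 : B 2 = 7 := by simp [B]
      have : B 2 ≤ B (n0 + 3) := B_mono' (by omega)
      omega
    have hvq3 : |(q : ℝ) * (q * e - p)| ≤ M := by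
      have h0 := abs_nonneg ((q : ℝ) * (q * e - p))
      have h1 : (1 : ℝ) ≤ (g : ℝ) ^ 2 := one_le_pow₀ hg1
      nlinarith
    obtain ⟨n, hn1, hn2, hn3⟩ := bframe M hM1 q p hq7 (by exact_mod_cast hvq3) hY
    have hnn0 : n0 ≤ n := by
      by_contra hlt
      push Not at hlt
      have : B (n + 3) ≤ B (n0 + 3) := B_mono' (by omega)
      omega
    rw [← hR] at hn2 hn3
    obtain ⟨s, hs, hest⟩ := frame_est n q p R hn2 hn3
    obtain ⟨z, hz⟩ : ∃ z : ℤ, z = s * (((q : ℤ) * A (n + 1) - p * B (n + 1)) *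
      ((q : ℤ) * A (n + 2) - p * B (n + 2))) := ⟨_, rfl⟩
    rw [← hz] at hest
    have hz0 : z ≠ 0 := by
      rw [hz]
      refine mul_ne_zero ?_ (mul_ne_zero (hY _) (hY _))
      rcases hs with h | h <;> rw [h] <;> norm_num
    have hz1 : (1 : ℝ) ≤ |(z : ℝ)| := by
      rw [← Int.cast_abs]
      exact_mod_cast Int.one_le_abs hz0
    obtain ⟨y, hy⟩ : ∃ y : ℝ, y = 2 * ((n + 1 : ℕ) : ℝ) + 1 := ⟨_, rfl⟩
    rw [← hy] at hest
    have hyn : (n0 : ℝ) ≤ y := by
      have : (n0 : ℝ) ≤ n := by exact_mod_cast hnn0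
      rw [hy]; push_cast; linarith [(Nat.cast_nonneg n : (0 : ℝ) ≤ n)]
    have hy0 : 0 < y := by
      have : 0 ≤ 8 * M * R ^ 2 / η + 4 * R ^ 2 := by positivity
      linarith
    have hA : R ^ 2 / y ≤ 1 / 4 := by
      rw [div_le_iff₀ hy0]
      have : 0 ≤ 8 * M * R ^ 2 / η := by positivity
      linarith
    have hBB : 4 * M * (R ^ 2 / y) < η / 2 := by
      rw [mul_div_assoc', div_lt_iff₀ hy0]
      have h1 : 8 * M * R ^ 2 / η < y := by
        have : 0 ≤ 4 * R ^ 2 := by positivity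
        linarith
      rw [div_lt_iff₀ hη] at h1
      linarith
    have hest' : |(q : ℝ) * (q * e - p) - (z : ℝ) / 2| ≤ R ^ 2 / y := by exact_mod_cast hest
    have hlow : 1 / 4 ≤ |(q : ℝ) * (q * e - p)| := by
      have h1 : |(z : ℝ) / 2| ≤ |(q : ℝ) * (q * e - p)| + |(q : ℝ) * (q * e - p) - (z : ℝ) / 2| := by
        have := abs_sub ((q : ℝ) * (q * e - p)) ((q : ℝ) * (q * e - p) - (z : ℝ) / 2)
        simpa using this
      rw [abs_div, abs_of_pos (by norm_num : (0 : ℝ) < 2)] at h1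
      linarith
    have hg2 : (g : ℝ) ^ 2 ≤ 4 * M := by nlinarith [sq_nonneg (g : ℝ)]
    have hfin : |((g ^ 2 * z : ℤ) : ℝ) / 2 - L| < η := by
      have h1 : ((g ^ 2 * z : ℤ) : ℝ) / 2 - L =
          -((g : ℝ) ^ 2 * ((q : ℝ) * (q * e - p) - (z : ℝ) / 2)) +
          ((Q : ℝ) * (Q * e - P) - L) := by
        rw [hvq]; push_cast; ring
      rw [h1]
      refine lt_of_le_of_lt (abs_add_le _ _) ?_
      rw [abs_neg, abs_mul, abs_of_nonneg (sq_nonneg (g : ℝ))]
      have h2 : (g : ℝ) ^ 2 * |(q : ℝ) * (q * e - p) - (z : ℝ) / 2| ≤ 4 * M * (R ^ 2 / y) := by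
        gcongr
      linarith
    have := hgap (g ^ 2 * z)
    linarith

end Pool.Agent.H67.EF
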