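import Pool.Agent.H67.EF.Second

/-! # The two levels together (helper67), for MP_58ae59_nt -/

set_option autoImplicit false

namespace Pool.Agent.H67.EF

open Pool.Agent.H76.EE Pool.Agent.H67.EE

theorem inv_u_le (n : ℕ) : 1 / u n ≤ 2 * n + 2 := by
  rcases Nat.lt_or_ge n 2 with h | h
  · interval_cases n
    · have h1 : u 0 = e - 1 := by unfold u; rw [E_zero]; simp [B]
      have h2 : (2.7182818283 : ℝ) < e := Real.exp_one_gt_d9
      rw [h1, div_le_iff₀ (by linarith)]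
      push_cast
      linarith
    · have h1 : u 1 = 3 - e := by unfold u; rw [E_one]; simp [B]
      have h2 : e < 2.7182818286 := Real.exp_one_lt_d9
      rw [h1, div_le_iff₀ (by linarith)]
      push_cast
      linarith
  · obtain ⟨k, rfl⟩ : ∃ k, n = k + 2 := ⟨n - 2, by omega⟩
    obtain ⟨d, hd0, hd1, hdu, -⟩ := u_bounds k
    rw [hdu]
    linarith

/-- positive multiples: the two levels together -/
theorem core_pos (α n0 T : ℕ) (hα : 1 ≤ α)
    (hn0 : 8 * Mb α * (6 * Mb α + 2) ^ 2 / eta α + 4 * (6 * Mb α + 2) ^ 2 < n0)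
    (hT : 104 * Mb α * (B (n0 + 3) : ℝ) ^ 2 < T) (Q P : ℕ)
    (hQ : Mb α * (2 * T + 2) * B T < Q) (L : ℝ) (hL : |L| = e * α / 3) (ε : ℝ)
    (h : |(Q : ℝ) * (Q * e - P) - L| ≤ ε)
    (hε : 7000000 * (α : ℝ) ^ 5 * (3 * (1 + Real.log Q)) ^ 4 * ε ≤ 1) : False := by
  have he0 : 0 < e := Real.exp_pos 1
  have he3 : e < 2.7182818286 := Real.exp_one_lt_d9
  have hαr : (1 : ℝ) ≤ α := by exact_mod_cast hα
  have hα0 : (0 : ℝ) < α := by linarith
  have hα2 : (1 : ℝ) ≤ (α : ℝ) ^ 2 := one_le_pow₀ hαr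
  have hα2' : (α : ℝ) ≤ (α : ℝ) ^ 2 := by
    have : (α : ℝ) ^ 1 ≤ (α : ℝ) ^ 2 := pow_le_pow_right₀ hαr (by norm_num)
    simpa using this
  have hα4 : (1 : ℝ) ≤ (α : ℝ) ^ 4 := one_le_pow₀ hαr
  have hη : 0 < eta α := by unfold eta; positivity
  have hM1 : 1 ≤ Mb α := by unfold Mb; linarith
  have hε0 : 0 ≤ ε := (abs_nonneg _).trans h
  have hT0 : (0 : ℝ) < T := by
    refine lt_of_le_of_lt ?_ hT
    positivity
  have hBT : (1 : ℝ) ≤ B T := by exact_mod_cast (B_pos T).1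
  have hTQ : (T : ℝ) < Q := by
    refine lt_of_le_of_lt ?_ hQ
    have h1 : (T : ℝ) ≤ 1 * (2 * T + 2) * 1 := by linarith
    refine h1.trans ?_
    gcongr
  have hQ0 : (0 : ℝ) < Q := by linarith
  have hQn : 0 < Q := by exact_mod_cast hQ0
  have hQ1 : (1 : ℝ) ≤ Q := by exact_mod_cast hQn
  have hlog : 0 ≤ Real.log Q := Real.log_nonneg hQ1
  -- the error is small
  have hεη : ε < eta α / 2 := by
    unfold eta
    rw [div_div, lt_div_iff₀ (by positivity)]
    have h1 : (81 : ℝ) ≤ (3 * (1 + Real.log Q)) ^ 4 := by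
      have : (3 : ℝ) ^ 4 ≤ (3 * (1 + Real.log Q)) ^ 4 := by
        apply pow_le_pow_left₀ (by norm_num)
        linarith
      linarith
    have h2 : (α : ℝ) ^ 4 ≤ (α : ℝ) ^ 5 := pow_le_pow_right₀ hαr (by norm_num)
    have h3 : 7000000 * (α : ℝ) ^ 4 * 81 * ε ≤ 7000000 * (α : ℝ) ^ 5 * (3 * (1 + Real.log Q)) ^ 4 * ε := by
      gcongr
    have h4 : 0 ≤ (α : ℝ) ^ 4 * ε := by positivity
    have h5 : 7000000 * (α : ℝ) ^ 4 * 81 * ε = 567000000 * ((α : ℝ) ^ 4 * ε) := by ring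
    have h6 : ε * (46800 * (α : ℝ) ^ 4 * 2) = 93600 * ((α : ℝ) ^ 4 * ε) := by ring
    rw [h6]
    rw [h5] at h3
    rcases eq_or_lt_of_le h4 with h7 | h7
    · rw [← h7]; norm_num
    · linarith
  have hη1 : eta α ≤ 1 := by
    unfold eta
    rw [div_le_one (by positivity)]
    linarith
  have hLM : |L| ≤ α := by
    rw [hL]
    have : e * (α : ℝ) ≤ 3 * α := mul_le_mul_of_nonneg_right (by linarith) hα0.le
    linarith
  have hval : |(Q : ℝ) * (Q * e - P)| ≤ Mb α := by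
    have h1 : |(Q : ℝ) * (Q * e - P)| ≤ |(Q : ℝ) * (Q * e - P) - L| + |L| := by
      have := abs_add_le ((Q : ℝ) * (Q * e - P) - L) L
      simpa using this
    unfold Mb
    linarith
  obtain ⟨n, G, hQG, hPG⟩ := base L (Mb α) (6 * Mb α + 2) (eta α) n0 hM1 rfl hη
    (gap_one α hα L hL) hn0 Q P (by linarith) hval (lt_of_le_of_lt h hεη)
  have hG : 0 < G := by
    rcases Nat.eq_zero_or_pos G with h0 | h0
    · rw [h0] at hQG; omega
    · exact h0
  have hGr : (1 : ℝ) ≤ G := by exact_mod_cast hG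
  have habs : |(Q : ℝ) * (Q * e - P)| = G ^ 2 * u n := by
    have h1 : (Q : ℝ) * (Q * e - P) = G ^ 2 * (B n * δ n) := by
      rw [hQG, hPG]; unfold δ; push_cast; ring
    rw [h1, abs_mul, abs_mul, abs_δ, abs_of_pos (Bpos n), abs_of_nonneg (sq_nonneg _)]
    rfl
  have hτ : |(G : ℝ) ^ 2 * u n - e * α / 3| ≤ ε := by
    rw [← habs, ← hL]
    exact (abs_abs_sub_abs_le _ _).trans h
  have hup := u_pos n
  -- the index is large
  have hnT : T ≤ n := by
    by_contra hlt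
    push Not at hlt
    have h1 : (G : ℝ) ^ 2 ≤ Mb α * (1 / u n) := by
      rw [habs] at hval
      have h2 : (G : ℝ) ^ 2 = (G ^ 2 * u n) * (1 / u n) := by field_simp
      rw [h2]
      apply mul_le_mul_of_nonneg_right hval (by positivity)
    have h2 : (n : ℝ) + 1 ≤ T := by exact_mod_cast hlt
    have h3 : 1 / u n ≤ 2 * T + 2 := (inv_u_le n).trans (by linarith)
    have h4 : (G : ℝ) ≤ Mb α * (2 * T + 2) := by
      have h5 : (G : ℝ) ≤ (G : ℝ) ^ 2 := by nlinarith
      have h6 : Mb α * (1 / u n) ≤ Mb α * (2 * T + 2) := mul_le_mul_of_nonneg_left h3 (by linarith)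
      linarith
    have h5 : (B n : ℝ) ≤ B T := by exact_mod_cast B_mono' hlt.le
    have h6 : (Q : ℝ) ≤ Mb α * (2 * T + 2) * B T := by
      rw [hQG]
      push_cast
      exact mul_le_mul h4 h5 (Bpos n).le (by positivity)
    linarith
  -- the index is not too large
  have hnlog : ((2 * n + 1 : ℕ) : ℝ) ≤ 3 * (1 + Real.log Q) := by
    rcases Nat.eq_zero_or_pos n with h0 | h0
    · rw [h0]; push_cast; linarith
    · obtain ⟨k, rfl⟩ : ∃ k, n = k + 1 := ⟨n - 1, by omega⟩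
      have h1 : 6 ^ k ≤ Q := by
        refine (B_six k).trans ?_
        rw [hQG]
        exact Nat.le_mul_of_pos_left _ hG
      have h1r : (6 : ℝ) ^ k ≤ Q := by exact_mod_cast h1
      have h2 : (k : ℝ) * Real.log 6 ≤ Real.log Q := by
        rw [← Real.log_pow]
        exact Real.log_le_log (by positivity) h1r
      have h3 : (1 : ℝ) ≤ Real.log 6 := by
        rw [Real.le_log_iff_exp_le (by norm_num)]
        have := Real.exp_one_lt_d9
        linarith
      have h4 : (0 : ℝ) ≤ k := Nat.cast_nonneg k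
      have h5 : (k : ℝ) ≤ Real.log Q := by nlinarith
      push_cast
      linarith
  refine second α n G n0 hα hn0 ?_ ε hτ ?_
  · refine lt_of_lt_of_le hT ?_
    have : T ≤ 2 * n + 1 := by omega
    exact_mod_cast this
  · refine le_trans ?_ hε
    gcongr

/-- the value zero -/
theorem core_zero (Q P : ℕ) (hQ : 1 ≤ Q) (ε : ℝ)
    (h : |(Q : ℝ) * (Q * e - P)| ≤ ε) (hε : 104 * (1 + Real.log Q) * ε < 1) : False := by
  have hQ1 : (1 : ℝ) ≤ Q := by exact_mod_cast hQ
  have hlog : 0 ≤ Real.log Q := Real.log_nonneg hQ1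
  have h1 := meas Q hQ P
  have h2 : 1 / (104 * (1 + Real.log Q)) ≤ |(Q : ℝ) * (Q * e - P)| := by
    rw [abs_mul, abs_of_pos (by linarith : (0 : ℝ) < Q)]
    have h3 : (Q : ℝ) * (1 / (104 * Q * (1 + Real.log Q))) ≤ Q * |(Q : ℝ) * e - P| :=
      mul_le_mul_of_nonneg_left (by exact_mod_cast h1) (by linarith)
    refine le_trans (le_of_eq ?_) h3
    field_simp
  have h3 := h2.trans h
  rw [div_le_iff₀ (by positivity)] at h3
  linarith

end Pool.Agent.H67.EF
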