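import Pool.Agent.H67.EF.Base

/-! # The second term of the expansion of `B n * E n` (helper67), for MP_58ae59_nt -/

set_option autoImplicit false

namespace Pool.Agent.H67.EF

open Pool.Agent.H76.EE Pool.Agent.H67.EE

theorem b_est (y t b₁ b₂ : ℝ) (hy : 400 ≤ y) (hty : t * y = 1) (ht0 : 0 < t) (hb₂ : 0 < b₂)
    (hb₂' : b₂ ≤ 1) (hb₁ : b₁ * (y - 8 + b₂) = 1) :
    1 + 7 * t ≤ y * b₁ ∧ y * b₁ ≤ 1 + 9 * t := by
  have h1 : y * b₁ = 1 + (8 - b₂) * b₁ := by linarith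
  have ht1 : t * 400 ≤ 1 := by
    rw [← hty]; exact mul_le_mul_of_nonneg_left hy ht0.le
  constructor
  · have h2 : t ≤ b₁ := by
      by_contra hlt
      push Not at hlt
      have h3 : b₁ * (y - 8 + b₂) < t * (y - 8 + b₂) := mul_lt_mul_of_pos_right hlt (by linarith)
      have h4 : t * (y - 8 + b₂) = 1 - t * (8 - b₂) := by linear_combination hty
      have h5 : 0 < t * (8 - b₂) := mul_pos ht0 (by linarith)
      linarith
    have h3 : 7 * t ≤ (8 - b₂) * b₁ := by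
      apply mul_le_mul (by linarith) h2 ht0.le (by linarith)
    linarith
  · have h2 : b₁ ≤ 9 / 8 * t := by
      by_contra hlt
      push Not at hlt
      have h3 : 9 / 8 * t * (y - 8 + b₂) < b₁ * (y - 8 + b₂) :=
        mul_lt_mul_of_pos_right hlt (by linarith)
      have h4 : 9 / 8 * t * (y - 8 + b₂) = 9 / 8 - 9 / 8 * (t * 8) + 9 / 8 * (t * b₂) := by
        linear_combination (9 / 8) * hty
      have h5 : 0 < t * b₂ := mul_pos ht0 hb₂
      linarith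
    have h3 : (8 - b₂) * b₁ ≤ 8 * (9 / 8 * t) := by
      have h4 : 0 < b₁ := by
        have h1 : 0 < y - 8 + b₂ := by linarith
        exact pos_of_mul_pos_left (by rw [hb₁]; norm_num) h1.le
      apply mul_le_mul (by linarith) h2 h4.le (by norm_num)
    linarith

theorem r_est (y t r₁ r₂ : ℝ) (hy : 400 ≤ y) (hty : t * y = 1) (ht0 : 0 < t) (hr₂ : 0 < r₂)
    (hr₂' : r₂ ≤ 1) (hr₁ : r₁ * (y + 8 + r₂) = 1) :
    1 - 9 * t ≤ y * r₁ ∧ y * r₁ ≤ 1 - 7.8 * t := by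
  have h1 : y * r₁ = 1 - (8 + r₂) * r₁ := by linarith
  have ht1 : t * 400 ≤ 1 := by
    rw [← hty]; exact mul_le_mul_of_nonneg_left hy ht0.le
  have hyr : 0 < y + 8 + r₂ := by linarith
  have h5 : t * (y + 8 + r₂) = 1 + t * (8 + r₂) := by linear_combination hty
  have h6 : 0 < t * (8 + r₂) := mul_pos ht0 (by linarith)
  have h7 : t * (8 + r₂) ≤ t * 9 := mul_le_mul_of_nonneg_left (by linarith) ht0.le
  constructor
  · have h2 : r₁ ≤ t := by
      by_contra hlt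
      push Not at hlt
      have h3 : t * (y + 8 + r₂) < r₁ * (y + 8 + r₂) := mul_lt_mul_of_pos_right hlt hyr
      linarith
    have h3 : (8 + r₂) * r₁ ≤ 9 * t := by
      have h4 : 0 < r₁ := pos_of_mul_pos_left (by rw [hr₁]; norm_num) hyr.le
      apply mul_le_mul (by linarith) h2 h4.le (by norm_num)
    linarith
  · have h2 : 0.975 * t ≤ r₁ := by
      by_contra hlt
      push Not at hlt
      have h3 : r₁ * (y + 8 + r₂) < 0.975 * t * (y + 8 + r₂) := mul_lt_mul_of_pos_right hlt hyr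
      have h4 : 0.975 * t * (y + 8 + r₂) = 0.975 * (t * (y + 8 + r₂)) := by ring
      rw [h4, h5] at h3
      linarith
    have h3 : 8 * (0.975 * t) ≤ (8 + r₂) * r₁ := by
      apply mul_le_mul (by linarith) h2 (by linarith) (by linarith)
    linarith

theorem w_est (y t b₁ r₁ w D : ℝ) (hy : 400 ≤ y) (hty : t * y = 1) (ht0 : 0 < t)
    (hx1' : 1 + 7 * t ≤ y * b₁) (hx1 : y * b₁ ≤ 1 + 9 * t) (hx2' : 1 - 9 * t ≤ y * r₁)
    (hx2 : y * r₁ ≤ 1 - 7.8 * t)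
    (hw : w = 16 - (y * b₁ + y * r₁) / 2 - 4 * (b₁ - r₁) - b₁ * r₁)
    (hD : D = (y - 4 + b₁) * (y + 4 + r₁)) :
    0 < b₁ ∧ 0 < r₁ ∧ 15 - 1.5 * t ≤ w ∧ w ≤ 15 + 1.3 * t ∧ y ^ 2 - 16 ≤ D ∧ D ≤ y ^ 2 - 13 := by
  have hy0 : 0 < y := by linarith
  have ht1 : t * 400 ≤ 1 := by
    rw [← hty]; exact mul_le_mul_of_nonneg_left hy ht0.le
  have hb1t : b₁ = (y * b₁) * t := by linear_combination (-b₁) * hty
  have hr1t : r₁ = (y * r₁) * t := by linear_combination (-r₁) * hty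
  have hb₁p : 0 < b₁ := by rw [hb1t]; exact mul_pos (by linarith) ht0
  have hr₁p : 0 < r₁ := by rw [hr1t]; exact mul_pos (by linarith) ht0
  have ht2 : t ^ 2 * 400 ≤ t := by
    have : t * (t * 400) ≤ t * 1 := mul_le_mul_of_nonneg_left ht1 ht0.le
    nlinarith
  have hbr : b₁ - r₁ ≤ 18 * t ^ 2 := by
    have h1 : b₁ - r₁ = (y * b₁ - y * r₁) * t := by linear_combination (r₁ - b₁) * hty
    rw [h1]
    have h2 : (y * b₁ - y * r₁) * t ≤ (18 * t) * t :=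
      mul_le_mul_of_nonneg_right (by linarith) ht0.le
    linarith
  have hbr' : 0 ≤ b₁ - r₁ := by
    have h1 : b₁ - r₁ = (y * b₁ - y * r₁) * t := by linear_combination (r₁ - b₁) * hty
    rw [h1]
    exact mul_nonneg (by linarith) ht0.le
  have hb1u : b₁ ≤ 1.1 * t := by
    rw [hb1t]; exact mul_le_mul_of_nonneg_right (by linarith) ht0.le
  have hr1u : r₁ ≤ 1 * t := by
    rw [hr1t]; exact mul_le_mul_of_nonneg_right (by linarith) ht0.le
  have hbrp : 0 < b₁ * r₁ := mul_pos hb₁p hr₁p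
  have hbru : b₁ * r₁ ≤ 1.1 * t ^ 2 := by
    have : b₁ * r₁ ≤ (1.1 * t) * (1 * t) := mul_le_mul hb1u hr1u hr₁p.le (by linarith)
    linarith
  have h1 : D = y ^ 2 - 16 + y * b₁ + y * r₁ + 4 * (b₁ - r₁) + b₁ * r₁ := by
    rw [hD]; ring
  refine ⟨hb₁p, hr₁p, ?_, ?_, ?_, ?_⟩
  · rw [hw]; linarith
  · rw [hw]; linarith
  · rw [h1]; linarith
  · rw [h1]; linarith

theorem frac_est (y b₁ r₁ b₂ r₂ β ρ : ℝ) (hy : 400 ≤ y) (hb₂ : 0 < b₂) (hb₂' : b₂ ≤ 1)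
    (hr₂ : 0 < r₂) (hr₂' : r₂ ≤ 1) (hb₁ : b₁ * (y - 8 + b₂) = 1) (hr₁ : r₁ * (y + 8 + r₂) = 1)
    (hβ : β * (y - 4 + b₁) = 1) (hρ : ρ * (y + 4 + r₁) = 1) :
    |y * ((β + ρ) / 2) - 1 - 15 / y ^ 2| ≤ 10 / y ^ 3 := by
  have hy0 : 0 < y := by linarith
  obtain ⟨t, ht⟩ : ∃ t : ℝ, t = 1 / y := ⟨_, rfl⟩
  have ht0 : 0 < t := by rw [ht]; positivity
  have hty : t * y = 1 := by rw [ht]; field_simp
  obtain ⟨D, hD⟩ : ∃ D : ℝ, D = (y - 4 + b₁) * (y + 4 + r₁) := ⟨_, rfl⟩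
  obtain ⟨w, hw⟩ : ∃ w : ℝ, w = 16 - (y * b₁ + y * r₁) / 2 - 4 * (b₁ - r₁) - b₁ * r₁ := ⟨_, rfl⟩
  obtain ⟨hx1', hx1⟩ := b_est y t b₁ b₂ hy hty ht0 hb₂ hb₂' hb₁
  obtain ⟨hx2', hx2⟩ := r_est y t r₁ r₂ hy hty ht0 hr₂ hr₂' hr₁
  obtain ⟨hb₁p, hr₁p, hwl, hwu, hDl, hDu⟩ := w_est y t b₁ r₁ w D hy hty ht0 hx1' hx1 hx2' hx2 hw hD
  clear hx1' hx1 hx2' hx2 hb₁ hr₁ hb₂ hb₂' hr₂ hr₂'
  have hD1 : 0 < y - 4 + b₁ := by linarith
  have hD2 : 0 < y + 4 + r₁ := by linarith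
  have hβ' : β = 1 / (y - 4 + b₁) := by rw [eq_div_iff hD1.ne']; exact hβ
  have hρ' : ρ = 1 / (y + 4 + r₁) := by rw [eq_div_iff hD2.ne']; exact hρ
  have hDp : 0 < D := by rw [hD]; positivity
  have hval : y * ((β + ρ) / 2) - 1 = w / D := by
    rw [hβ', hρ', eq_div_iff hDp.ne', hw, hD]
    field_simp
    ring
  clear hβ hρ hβ' hρ' hD1 hD2 hw hD hb₁p hr₁p
  have hy2 : 0 < y ^ 2 := by positivity
  have hy3 : 0 < y ^ 3 := by positivity
  have hmain : w / D - 15 / y ^ 2 = (w * y ^ 2 - 15 * D) / (D * y ^ 2) := by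
    field_simp
  rw [hval, hmain, abs_div, abs_of_pos (mul_pos hDp hy2), div_le_div_iff₀ (mul_pos hDp hy2) hy3]
  have h3 : t * y ^ 2 = y := by rw [sq, ← mul_assoc, hty, one_mul]
  have h1 : |w * y ^ 2 - 15 * D| ≤ 2 * y + 240 := by
    rw [abs_le]
    constructor
    · have h2 : (15 - 1.5 * t) * y ^ 2 ≤ w * y ^ 2 := mul_le_mul_of_nonneg_right hwl hy2.le
      have h4 : (15 - 1.5 * t) * y ^ 2 = 15 * y ^ 2 - 1.5 * y := by linear_combination (-1.5) * h3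
      linarith
    · have h2 : w * y ^ 2 ≤ (15 + 1.3 * t) * y ^ 2 := mul_le_mul_of_nonneg_right hwu hy2.le
      have h4 : (15 + 1.3 * t) * y ^ 2 = 15 * y ^ 2 + 1.3 * y := by linear_combination (1.3) * h3
      linarith
  have h2 : |w * y ^ 2 - 15 * D| * y ^ 3 ≤ (2 * y + 240) * y ^ 3 :=
    mul_le_mul_of_nonneg_right h1 hy3.le
  refine h2.trans ?_
  have h4 : (2 * y + 240) * y ^ 3 = ((2 * y + 240) * y) * y ^ 2 := by ring
  rw [h4, ← mul_assoc]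
  apply mul_le_mul_of_nonneg_right _ hy2.le
  have h5 : 400 * y ≤ y ^ 2 := by rw [sq]; exact mul_le_mul_of_nonneg_right hy hy0.le
  have h6 : (2 * y + 240) * y = 2 * y ^ 2 + 240 * y := by ring
  rw [h6]
  linarith

theorem quot_aux (a b c d : ℝ) (ha : a ≠ 0) (hb : b ≠ 0) (h : b = c * a + d) :
    a / b * (c + d / a) = 1 := by
  have h1 : c + d / a = b / a := by
    rw [h]
    field_simp
  rw [h1]
  field_simp

theorem u_exp (n : ℕ) (hn : 100 ≤ n) : ∃ d : ℝ, 0 < d ∧ d ≤ 1 ∧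
    1 / u (n + 3) = (2 * (n + 3 : ℕ) + 1) + d ∧
    |2 * (2 * ((n + 3 : ℕ) : ℝ) + 1) * d - 1 - 15 / (4 * (2 * ((n + 3 : ℕ) : ℝ) + 1) ^ 2)| ≤
      2 / (2 * ((n + 3 : ℕ) : ℝ) + 1) ^ 3 := by
  obtain ⟨y, hy⟩ : ∃ y : ℝ, y = 4 * n + 14 := ⟨_, rfl⟩
  have hnr : (100 : ℝ) ≤ n := by exact_mod_cast hn
  have hy1 : 400 ≤ y := by rw [hy]; linarith
  have hN : (2 * ((n + 3 : ℕ) : ℝ) + 1) = y / 2 := by rw [hy]; push_cast; ring
  have e1 : (B (n + 2) : ℝ) = (y - 8) * B (n + 1) + B n := by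
    rw [B_succ, hy]; push_cast; ring
  have e2 : (B (n + 3) : ℝ) = (y - 4) * B (n + 2) + B (n + 1) := by
    have := B_succ (n + 1)
    rw [this, hy]; push_cast; ring
  have e3 : (B (n + 4) : ℝ) = y * B (n + 3) + B (n + 2) := by
    have := B_succ (n + 2)
    rw [this, hy]; push_cast; ring
  have f1 : E (n + 3) = (y + 4) * E (n + 4) + E (n + 5) := by
    have := E_rec (n + 3)
    rw [this, hy]; push_cast; ring
  have f2 : E (n + 4) = (y + 8) * E (n + 5) + E (n + 6) := by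
    have := E_rec (n + 4)
    rw [this, hy]; push_cast; ring
  have hb0 := Bpos n
  have hb1 := Bpos (n + 1)
  have hb2 := Bpos (n + 2)
  have hb3 := Bpos (n + 3)
  have he3 := E_pos (n + 3)
  have he4 := E_pos (n + 4)
  have he5 := E_pos (n + 5)
  have he6 := E_pos (n + 6)
  have hB01 : (B n : ℝ) ≤ B (n + 1) := by exact_mod_cast B_mono n
  have hE56 : E (n + 6) ≤ E (n + 5) := E_le (n + 5)
  have hmain := frac_est y (B (n + 1) / B (n + 2)) (E (n + 5) / E (n + 4)) (B n / B (n + 1))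
    (E (n + 6) / E (n + 5)) (B (n + 2) / B (n + 3)) (E (n + 4) / E (n + 3)) hy1
    (by positivity) ((div_le_one hb1).2 hB01) (by positivity) ((div_le_one he5).2 hE56)
    (quot_aux _ _ _ _ hb1.ne' hb2.ne' e1) (quot_aux _ _ _ _ he5.ne' he4.ne' f2)
    (quot_aux _ _ _ _ hb2.ne' hb3.ne' e2) (quot_aux _ _ _ _ he4.ne' he3.ne' f1)
  have hβ1 : (B (n + 2) : ℝ) / B (n + 3) ≤ 1 := by
    rw [div_le_one hb3]; exact_mod_cast B_mono (n + 2)
  have hρ1 : E (n + 4) / E (n + 3) ≤ 1 := by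
    rw [div_le_one he3]; exact E_le (n + 3)
  refine ⟨((B (n + 2) : ℝ) / B (n + 3) + E (n + 4) / E (n + 3)) / 2, by positivity, by linarith,
    ?_, ?_⟩
  · have hc := cas (n + 3)
    change (B (n + 4) : ℝ) * E (n + 3) + B (n + 3) * E (n + 4) = 2 at hc
    have hu : u (n + 3) * (y + (B (n + 2) : ℝ) / B (n + 3) + E (n + 4) / E (n + 3)) = 2 := by
      rw [← hc, e3]
      unfold u
      field_simp
    rw [hN, div_eq_iff (u_pos _).ne']
    linarith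
  · rw [hN]
    have h1 : 2 * (y / 2) * (((B (n + 2) : ℝ) / B (n + 3) + E (n + 4) / E (n + 3)) / 2) - 1 -
        15 / (4 * (y / 2) ^ 2) = y * (((B (n + 2) : ℝ) / B (n + 3) + E (n + 4) / E (n + 3)) / 2) -
        1 - 15 / y ^ 2 := by
      congr 2
      · ring
      · ring
    rw [h1]
    refine hmain.trans ?_
    rw [div_le_div_iff₀ (by positivity) (by positivity)]
    have : 0 < y ^ 3 := by positivity
    nlinarith

end Pool.Agent.H67.EF
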