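import Pool.Agent.H67.EF.Log

/-! # The first level: the approximation of e (helper67), for MP_58ae59_nt -/

set_option autoImplicit false

namespace Pool.Agent.H67.EF

open Pool.Agent.H76.EE Pool.Agent.H67.EE

theorem coef_bounds (H a₁ a₂ a₃ : ℝ) (hH : 1 ≤ H) (ha₁' : |a₁| ≤ H)
    (ha₂ : |a₂| ≤ H) (ha₃ : |a₃| ≤ H) :
    |a₂ - a₁ ^ 2 / 2| ≤ 1.5 * H ^ 2 ∧ |a₃ - a₁ * a₂ + a₁ ^ 3 / 3| ≤ 7 / 3 * H ^ 3 ∧
    |a₁ * a₃ - a₂ ^ 2 + a₁ ^ 4 / 12| ≤ 2.1 * H ^ 4 := by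
  have hH0 : 0 < H := by linarith
  have h2 : H ≤ H ^ 2 := by
    have : H ^ 1 ≤ H ^ 2 := pow_le_pow_right₀ hH (by norm_num)
    simpa using this
  have h23 : H ^ 2 ≤ H ^ 3 := pow_le_pow_right₀ hH (by norm_num)
  have h34 : H ^ 3 ≤ H ^ 4 := pow_le_pow_right₀ hH (by norm_num)
  have e2 : a₁ ^ 2 ≤ H ^ 2 := by
    rw [← sq_abs]; exact pow_le_pow_left₀ (abs_nonneg _) ha₁' 2
  have e3 : |a₁ ^ 3| ≤ H ^ 3 := by
    rw [abs_pow]; exact pow_le_pow_left₀ (abs_nonneg _) ha₁' 3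
  have e4 : a₁ ^ 4 ≤ H ^ 4 := by
    have h1 : a₁ ^ 4 = |a₁| ^ 4 := by
      have : (4 : ℕ) = 2 * 2 := rfl
      rw [this, pow_mul, pow_mul, sq_abs]
    rw [h1]; exact pow_le_pow_left₀ (abs_nonneg _) ha₁' 4
  have p2 : 0 ≤ a₁ ^ 2 := by positivity
  have p4 : 0 ≤ a₁ ^ 4 := by positivity
  have m2 : |a₁ * a₂| ≤ H ^ 2 := by
    rw [abs_mul, sq]
    exact mul_le_mul ha₁' ha₂ (abs_nonneg _) hH0.le
  have m3 : |a₁ * a₃| ≤ H ^ 2 := by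
    rw [abs_mul, sq]
    exact mul_le_mul ha₁' ha₃ (abs_nonneg _) hH0.le
  have m4 : a₂ ^ 2 ≤ H ^ 2 := by
    rw [← sq_abs]; exact pow_le_pow_left₀ (abs_nonneg _) ha₂ 2
  have m5 := sq_nonneg a₂
  rw [abs_le] at ha₂ ha₃ m2 m3 e3
  refine ⟨?_, ?_, ?_⟩
  · rw [abs_le]; constructor <;> linarith
  · rw [abs_le]; constructor <;> linarith
  · rw [abs_le]; constructor <;> linarith

theorem level_real (H a₁ c₂ c₃ s₀ t w' δ lam n k D : ℝ) (hH : 1 ≤ H) (ha₁ : 1 ≤ a₁)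
    (ha₁' : a₁ ≤ H) (hc₂ : |c₂| ≤ 1.5 * H ^ 2) (hc₃ : |c₃| ≤ 7 / 3 * H ^ 3)
    (hs₀ : |s₀| ≤ 2.1 * H ^ 4) (hs : s₀ = a₁ * c₃ - c₂ ^ 2) (ht : 0 < t) (hδ0 : 0 ≤ δ)
    (hδ1 : δ ≤ 1) (htδ : 20 * H ^ 5 * t ≤ δ) (hw : |w'| ≤ 2 * δ)
    (hlam : lam = t * (a₁ + c₂ * t + c₃ * t ^ 2 + w' * t ^ 2)) (hn : k * e = n * lam)
    (hk : 0 < k) (hD : D * t = a₁ - c₂ * t) :
    0 < lam ∧ |2 * k * D * (2 * k * D * e - 2 * n * a₁ ^ 2) - 4 * k ^ 2 * e * s₀| ≤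
      50 * k ^ 2 * H * δ := by
  have he0 : 0 < e := Real.exp_pos 1
  have he3 : e < 2.7182818286 := Real.exp_one_lt_d9
  obtain ⟨Λ, hΛ⟩ : ∃ Λ : ℝ, Λ = a₁ + c₂ * t + c₃ * t ^ 2 + w' * t ^ 2 := ⟨_, rfl⟩
  rw [← hΛ] at hlam
  have hH2 : 1 ≤ H ^ 2 := one_le_pow₀ hH
  have hH2p : 0 < H ^ 2 := by positivity
  have hH5 : H ^ 2 ≤ H ^ 5 := pow_le_pow_right₀ hH (by norm_num)
  have hHH2 : H ≤ H ^ 2 := by
    have : H ^ 1 ≤ H ^ 2 := pow_le_pow_right₀ hH (by norm_num)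
    simpa using this
  have hH2t : 20 * (H ^ 2 * t) ≤ 1 := by
    have h1 : H ^ 2 * t ≤ H ^ 5 * t := mul_le_mul_of_nonneg_right hH5 ht.le
    linarith
  have hH2t0 : 0 < H ^ 2 * t := by positivity
  have hHt : 20 * (H * t) ≤ 1 := by
    have h1 : H * t ≤ H ^ 2 * t := mul_le_mul_of_nonneg_right hHH2 ht.le
    linarith
  have ht20 : 20 * t ≤ 1 := by
    have : 1 * t ≤ H * t := mul_le_mul_of_nonneg_right hH ht.le
    linarith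
  have ht2 : 0 < t ^ 2 := by positivity
  -- the small quantities
  have q1 : |c₂ * t| ≤ 1.5 * (H ^ 2 * t) := by
    rw [abs_mul, abs_of_pos ht]
    have := mul_le_mul_of_nonneg_right hc₂ ht.le
    linarith
  have q2 : |c₃ * t ^ 2| ≤ 0.12 * (H ^ 2 * t) := by
    rw [abs_mul, abs_of_pos ht2]
    have h1 := mul_le_mul_of_nonneg_right hc₃ ht2.le
    have h2 : 7 / 3 * H ^ 3 * t ^ 2 = 7 / 3 * (H * t) * (H ^ 2 * t) := by ring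
    have h3 : 7 / 3 * (H * t) * (H ^ 2 * t) ≤ 0.12 * (H ^ 2 * t) :=
      mul_le_mul_of_nonneg_right (by linarith) hH2t0.le
    linarith
  have q3 : |w' * t ^ 2| ≤ 0.1 * (H ^ 2 * t) := by
    rw [abs_mul, abs_of_pos ht2]
    have h1 : |w'| * t ^ 2 ≤ 2 * t ^ 2 := mul_le_mul_of_nonneg_right (by linarith) ht2.le
    have h2 : 2 * t ^ 2 = (2 * t) * t := by ring
    have h3 : (2 * t) * t ≤ 0.1 * t := mul_le_mul_of_nonneg_right (by linarith) ht.le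
    have h4 : 1 * t ≤ H ^ 2 * t := mul_le_mul_of_nonneg_right hH2 ht.le
    linarith
  have hΛl : 0.9 ≤ Λ := by
    rw [hΛ]
    rw [abs_le] at q1 q2 q3
    linarith
  have hΛ0 : 0 < Λ := by linarith
  refine ⟨by rw [hlam]; positivity, ?_⟩
  obtain ⟨θ, hθ⟩ : ∃ θ : ℝ, θ = (a₁ - c₂ * t) / Λ := ⟨_, rfl⟩
  have hθ1 : |θ - 1| ≤ 3.7 * (H ^ 2 * t) := by
    have h1 : θ - 1 = (-(2 * (c₂ * t)) - c₃ * t ^ 2 - w' * t ^ 2) / Λ := by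
      rw [hθ, eq_div_iff hΛ0.ne', sub_mul, div_mul_cancel₀ _ hΛ0.ne', hΛ]
      ring
    rw [h1, abs_div, abs_of_pos hΛ0, div_le_iff₀ hΛ0]
    have h2 : |-(2 * (c₂ * t)) - c₃ * t ^ 2 - w' * t ^ 2| ≤ 3.3 * (H ^ 2 * t) := by
      rw [abs_le] at q1 q2 q3 ⊢
      constructor <;> linarith
    have h3 : 3.7 * (H ^ 2 * t) * 0.9 ≤ 3.7 * (H ^ 2 * t) * Λ :=
      mul_le_mul_of_nonneg_left hΛl (by positivity)
    linarith
  have hθu : |θ| ≤ 1.2 := by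
    have := abs_add_le (θ - 1) 1
    rw [sub_add_cancel, abs_one] at this
    linarith
  obtain ⟨ρ, hρ⟩ : ∃ ρ : ℝ, ρ = -(c₂ * c₃ * t) + (a₁ - c₂ * t) * w' := ⟨_, rfl⟩
  have hρ1 : |ρ| ≤ 2.4 * (H * δ) := by
    rw [hρ]
    refine (abs_add_le _ _).trans ?_
    rw [abs_neg]
    have h1 : |c₂ * c₃ * t| ≤ 0.2 * (H * δ) := by
      rw [abs_mul, abs_mul, abs_of_pos ht]
      have h2 : |c₂| * |c₃| ≤ (1.5 * H ^ 2) * (7 / 3 * H ^ 3) :=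
        mul_le_mul hc₂ hc₃ (abs_nonneg _) (by positivity)
      have h3 : |c₂| * |c₃| * t ≤ (1.5 * H ^ 2) * (7 / 3 * H ^ 3) * t :=
        mul_le_mul_of_nonneg_right h2 ht.le
      have h4 : (1.5 * H ^ 2) * (7 / 3 * H ^ 3) * t = 3.5 * (H ^ 5 * t) := by ring
      have h5 : 1 * δ ≤ H * δ := mul_le_mul_of_nonneg_right hH hδ0
      linarith
    have h2 : |(a₁ - c₂ * t) * w'| ≤ 2.2 * (H * δ) := by
      rw [abs_mul]
      have h3 : |a₁ - c₂ * t| ≤ 1.1 * H := by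
        rw [abs_le] at q1 ⊢
        constructor <;> linarith
      have h4 : |a₁ - c₂ * t| * |w'| ≤ (1.1 * H) * (2 * δ) :=
        mul_le_mul h3 hw (abs_nonneg _) (by positivity)
      linarith
    linarith
  -- the identity
  have hnt : n * t * Λ = k * e := by rw [hn, hlam]; ring
  have hid : 2 * k * D * (2 * k * D * e - 2 * n * a₁ ^ 2) = 4 * k ^ 2 * e * (θ * (s₀ + ρ)) := by
    have h1 : 2 * k * D * e - 2 * n * a₁ ^ 2 = 2 * n * t ^ 2 * (s₀ + ρ) := by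
      have h2 : 2 * k * D * e = 2 * (D * t) * (n * Λ) := by
        linear_combination (-2 * D) * hnt
      rw [h2, hD, hΛ, hs, hρ]
      ring
    rw [h1]
    have h3 : θ * Λ = a₁ - c₂ * t := by rw [hθ, div_mul_cancel₀ _ hΛ0.ne']
    calc 2 * k * D * (2 * n * t ^ 2 * (s₀ + ρ)) = 4 * k * (D * t) * (n * t) * (s₀ + ρ) := by ring
      _ = 4 * k * (θ * Λ) * (n * t) * (s₀ + ρ) := by rw [hD, h3]
      _ = 4 * k * θ * (n * t * Λ) * (s₀ + ρ) := by ring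
      _ = 4 * k ^ 2 * e * (θ * (s₀ + ρ)) := by rw [hnt]; ring
  rw [hid]
  have h1 : 4 * k ^ 2 * e * (θ * (s₀ + ρ)) - 4 * k ^ 2 * e * s₀ =
      4 * k ^ 2 * e * ((θ - 1) * s₀ + θ * ρ) := by ring
  rw [h1, abs_mul, abs_of_pos (by positivity : 0 < 4 * k ^ 2 * e)]
  have h2 : |(θ - 1) * s₀ + θ * ρ| ≤ 3.4 * (H * δ) := by
    refine (abs_add_le _ _).trans ?_
    rw [abs_mul, abs_mul]
    have h3 : |θ - 1| * |s₀| ≤ (3.7 * (H ^ 2 * t)) * (2.1 * H ^ 4) :=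
      mul_le_mul hθ1 hs₀ (abs_nonneg _) (by positivity)
    have h4 : |θ| * |ρ| ≤ 1.2 * (2.4 * (H * δ)) :=
      mul_le_mul hθu hρ1 (abs_nonneg _) (by norm_num)
    have h5 : (3.7 * (H ^ 2 * t)) * (2.1 * H ^ 4) = 7.77 * (H * (H ^ 5 * t)) := by ring
    have h6 : H * (H ^ 5 * t) * 20 ≤ H * δ := by
      have h7 := mul_le_mul_of_nonneg_left htδ (by linarith : 0 ≤ H)
      linarith
    have h8 : 0 ≤ H * δ := by positivity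
    linarith
  have h3 : 4 * k ^ 2 * e * |(θ - 1) * s₀ + θ * ρ| ≤ 4 * k ^ 2 * e * (3.4 * (H * δ)) :=
    mul_le_mul_of_nonneg_left h2 (by positivity)
  refine h3.trans ?_
  have h4 : 4 * k ^ 2 * e * (3.4 * (H * δ)) = (13.6 * e) * (k ^ 2 * H * δ) := by ring
  have h5 : (13.6 * e) * (k ^ 2 * H * δ) ≤ 50 * (k ^ 2 * H * δ) :=
    mul_le_mul_of_nonneg_right (by linarith) (by positivity)
  linarith

end Pool.Agent.H67.EF
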