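import Pool.Agent.H67.EF.Core

/-! # The first level: logarithms (helper67), for MP_58ae59_nt -/

set_option autoImplicit false

namespace Pool.Agent.H67.EF

open Pool.Agent.H76.EE Pool.Agent.H67.EE

theorem log_cubic (y : ℝ) (hy : |y| ≤ 1 / 10) :
    |Real.log (1 + y) - (y - y ^ 2 / 2 + y ^ 3 / 3)| ≤ 2 * |y| ^ 4 := by
  have h2 := Real.abs_log_sub_add_sum_range_le (x := -y) (by rw [abs_neg]; linarith) 3
  rw [abs_neg] at h2
  simp only [Finset.sum_range_succ, Finset.sum_range_zero, zero_add, sub_neg_eq_add] at h2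
  have h3 : Real.log (1 + y) - (y - y ^ 2 / 2 + y ^ 3 / 3) =
      (-y) ^ (0 + 1) / ((0 : ℕ) + 1) + (-y) ^ (1 + 1) / ((1 : ℕ) + 1) +
        (-y) ^ (2 + 1) / ((2 : ℕ) + 1) + Real.log (1 + y) := by
    push_cast
    ring
  rw [h3]
  refine (le_of_eq (by norm_num)).trans (h2.trans ?_)
  rw [div_le_iff₀ (by linarith)]
  have h4 : 0 ≤ |y| ^ 4 := by positivity
  have h5 : |y| ^ (3 + 1) = |y| ^ 4 := rfl
  rw [h5]
  have h6 : |y| ^ 4 * |y| ≤ |y| ^ 4 * (1 / 10) := mul_le_mul_of_nonneg_left hy h4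
  linarith

/-- the expansion of the logarithm with explicit error term -/
theorem log_est (H a₁ a₂ a₃ t w₀ δ : ℝ) (hH : 1 ≤ H) (ha₁ : |a₁| ≤ H)
    (ha₂ : |a₂| ≤ H) (ha₃ : |a₃| ≤ H) (ht : 0 < t) (hδ0 : 0 ≤ δ) (hδ1 : δ ≤ 1)
    (htδ : 20 * H ^ 5 * t ≤ δ) (hw : |w₀| ≤ δ * t ^ 3) :
    |Real.log (1 + (a₁ * t + a₂ * t ^ 2 + a₃ * t ^ 3 + w₀)) - (a₁ * t +
      (a₂ - a₁ ^ 2 / 2) * t ^ 2 + (a₃ - a₁ * a₂ + a₁ ^ 3 / 3) * t ^ 3)| ≤ 2 * δ * t ^ 3 := by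
  have hH2 : 1 ≤ H ^ 2 := one_le_pow₀ hH
  have hH5 : H ≤ H ^ 5 := by
    have : H ^ 1 ≤ H ^ 5 := pow_le_pow_right₀ hH (by norm_num)
    simpa using this
  have hHt : 20 * (H * t) ≤ 1 := by
    have h1 : H * t ≤ H ^ 5 * t := mul_le_mul_of_nonneg_right hH5 ht.le
    linarith
  have hHt0 : 0 < H * t := by positivity
  have ht20 : 20 * t ≤ 1 := by
    have : 1 * t ≤ H * t := mul_le_mul_of_nonneg_right hH ht.le
    linarith
  obtain ⟨v, hv⟩ : ∃ v : ℝ, v = a₃ * t ^ 3 + w₀ := ⟨_, rfl⟩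
  obtain ⟨r, hr⟩ : ∃ r : ℝ, r = a₂ * t ^ 2 + v := ⟨_, rfl⟩
  obtain ⟨y, hy⟩ : ∃ y : ℝ, y = a₁ * t + r := ⟨_, rfl⟩
  have hyy : a₁ * t + a₂ * t ^ 2 + a₃ * t ^ 3 + w₀ = y := by rw [hy, hr, hv]; ring
  rw [hyy]
  have ht2 : 0 < t ^ 2 := by positivity
  have ht3 : 0 < t ^ 3 := by positivity
  have ht4 : 0 < t ^ 4 := by positivity
  have hv1 : |v| ≤ 2 * H * t ^ 3 := by
    rw [hv]
    refine (abs_add_le _ _).trans ?_
    rw [abs_mul, abs_of_pos ht3]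
    have h1 : |a₃| * t ^ 3 ≤ H * t ^ 3 := mul_le_mul_of_nonneg_right ha₃ ht3.le
    have h2 : δ * t ^ 3 ≤ H * t ^ 3 := mul_le_mul_of_nonneg_right (hδ1.trans hH) ht3.le
    linarith
  have hr1 : |r| ≤ 1.1 * H * t ^ 2 := by
    rw [hr]
    refine (abs_add_le _ _).trans ?_
    rw [abs_mul, abs_of_pos ht2]
    have h1 : |a₂| * t ^ 2 ≤ H * t ^ 2 := mul_le_mul_of_nonneg_right ha₂ ht2.le
    have h2 : 2 * H * t ^ 3 = (2 * t) * (H * t ^ 2) := by ring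
    have h3 : (2 * t) * (H * t ^ 2) ≤ 0.1 * (H * t ^ 2) :=
      mul_le_mul_of_nonneg_right (by linarith) (by positivity)
    linarith
  have hy1 : |y| ≤ 1.06 * (H * t) := by
    rw [hy]
    refine (abs_add_le _ _).trans ?_
    rw [abs_mul, abs_of_pos ht]
    have h1 : |a₁| * t ≤ H * t := mul_le_mul_of_nonneg_right ha₁ ht.le
    have h2 : 1.1 * H * t ^ 2 = (1.1 * t) * (H * t) := by ring
    have h3 : (1.1 * t) * (H * t) ≤ 0.06 * (H * t) :=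
      mul_le_mul_of_nonneg_right (by linarith) hHt0.le
    linarith
  have hlog := log_cubic y (by linarith)
  -- powers of `y`
  have hy4 : |y| ^ 4 ≤ 1.3 * (H ^ 4 * t ^ 4) := by
    have h1 : |y| ^ 4 ≤ (1.06 * (H * t)) ^ 4 := pow_le_pow_left₀ (abs_nonneg _) hy1 4
    refine h1.trans ?_
    have h2 : (1.06 * (H * t)) ^ 4 = 1.06 ^ 4 * (H ^ 4 * t ^ 4) := by ring
    rw [h2]
    apply mul_le_mul_of_nonneg_right (by norm_num) (by positivity)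
  have hR2 : |2 * (a₁ * t) * v + r ^ 2| ≤ 5.3 * (H ^ 4 * t ^ 4) := by
    refine (abs_add_le _ _).trans ?_
    rw [abs_mul, abs_pow]
    have h0 : |2 * (a₁ * t)| ≤ 2 * (H * t) := by
      rw [abs_mul, abs_mul, abs_of_pos ht, abs_of_pos (by norm_num : (0 : ℝ) < 2)]
      have : |a₁| * t ≤ H * t := mul_le_mul_of_nonneg_right ha₁ ht.le
      linarith
    have h1 : |2 * (a₁ * t)| * |v| ≤ 2 * (H * t) * (2 * H * t ^ 3) :=
      mul_le_mul h0 hv1 (abs_nonneg _) (by positivity)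
    have h2 : |r| ^ 2 ≤ (1.1 * H * t ^ 2) ^ 2 := pow_le_pow_left₀ (abs_nonneg _) hr1 2
    have h3 : 2 * (H * t) * (2 * H * t ^ 3) = 4 * (H ^ 2 * t ^ 4) := by ring
    have h4 : (1.1 * H * t ^ 2) ^ 2 = 1.21 * (H ^ 2 * t ^ 4) := by ring
    have h5 : H ^ 2 * t ^ 4 ≤ H ^ 4 * t ^ 4 :=
      mul_le_mul_of_nonneg_right (pow_le_pow_right₀ hH (by norm_num)) ht4.le
    have h6 : 0 < H ^ 4 * t ^ 4 := by positivity
    linarith
  have hR3 : |r * (y ^ 2 + y * (a₁ * t) + (a₁ * t) ^ 2)| ≤ 3.6 * (H ^ 4 * t ^ 4) := by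
    rw [abs_mul]
    have hat : |a₁ * t| ≤ H * t := by
      rw [abs_mul, abs_of_pos ht]
      exact mul_le_mul_of_nonneg_right ha₁ ht.le
    have h1 : |y ^ 2 + y * (a₁ * t) + (a₁ * t) ^ 2| ≤ 3.2 * (H ^ 2 * t ^ 2) := by
      refine (abs_add_three _ _ _).trans ?_
      rw [abs_pow, abs_pow, abs_mul]
      have e1 : |y| ^ 2 ≤ (1.06 * (H * t)) ^ 2 := pow_le_pow_left₀ (abs_nonneg _) hy1 2
      have e2 : |y| * |a₁ * t| ≤ (1.06 * (H * t)) * (H * t) :=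
        mul_le_mul hy1 hat (abs_nonneg _) (by positivity)
      have e3 : |a₁ * t| ^ 2 ≤ (H * t) ^ 2 := pow_le_pow_left₀ (abs_nonneg _) hat 2
      have e4 : 0 ≤ H ^ 2 * t ^ 2 := by positivity
      have e5 : (1.06 * (H * t)) ^ 2 = 1.1236 * (H ^ 2 * t ^ 2) := by ring
      have e6 : (1.06 * (H * t)) * (H * t) = 1.06 * (H ^ 2 * t ^ 2) := by ring
      have e7 : (H * t) ^ 2 = H ^ 2 * t ^ 2 := by ring
      rw [e5] at e1
      rw [e6] at e2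
      rw [e7] at e3
      linarith
    have h2 : |r| * |y ^ 2 + y * (a₁ * t) + (a₁ * t) ^ 2| ≤
        (1.1 * H * t ^ 2) * (3.2 * (H ^ 2 * t ^ 2)) :=
      mul_le_mul hr1 h1 (abs_nonneg _) (by positivity)
    have h3 : (1.1 * H * t ^ 2) * (3.2 * (H ^ 2 * t ^ 2)) = 3.52 * (H ^ 3 * t ^ 4) := by ring
    have h5 : H ^ 3 * t ^ 4 ≤ H ^ 4 * t ^ 4 :=
      mul_le_mul_of_nonneg_right (pow_le_pow_right₀ hH (by norm_num)) ht4.le
    have h6 : 0 < H ^ 4 * t ^ 4 := by positivity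
    linarith
  -- the identity
  have hid : Real.log (1 + y) - (a₁ * t + (a₂ - a₁ ^ 2 / 2) * t ^ 2 +
      (a₃ - a₁ * a₂ + a₁ ^ 3 / 3) * t ^ 3) =
      (Real.log (1 + y) - (y - y ^ 2 / 2 + y ^ 3 / 3)) + w₀ -
        (2 * (a₁ * t) * v + r ^ 2) / 2 + (r * (y ^ 2 + y * (a₁ * t) + (a₁ * t) ^ 2)) / 3 := by
    rw [hy, hr, hv]
    ring
  rw [hid]
  have hH4 : H ^ 4 * t ^ 4 ≤ H ^ 5 * t * t ^ 3 := by
    have h1 : H ^ 5 * t * t ^ 3 = H ^ 5 * t ^ 4 := by ring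
    rw [h1]
    exact mul_le_mul_of_nonneg_right (pow_le_pow_right₀ hH (by norm_num)) ht4.le
  have hδt : 20 * (H ^ 5 * t * t ^ 3) ≤ δ * t ^ 3 := by
    have := mul_le_mul_of_nonneg_right htδ ht3.le
    linarith
  have hfin : |(Real.log (1 + y) - (y - y ^ 2 / 2 + y ^ 3 / 3)) + w₀ -
      (2 * (a₁ * t) * v + r ^ 2) / 2 + (r * (y ^ 2 + y * (a₁ * t) + (a₁ * t) ^ 2)) / 3| ≤
      |Real.log (1 + y) - (y - y ^ 2 / 2 + y ^ 3 / 3)| + |w₀| + |2 * (a₁ * t) * v + r ^ 2| / 2 +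
        |r * (y ^ 2 + y * (a₁ * t) + (a₁ * t) ^ 2)| / 3 := by
    refine (abs_add_le _ _).trans ?_
    refine add_le_add ((abs_sub _ _).trans (add_le_add (abs_add_le _ _) ?_)) ?_
    · rw [abs_div, abs_of_pos (by norm_num : (0 : ℝ) < 2)]
    · rw [abs_div, abs_of_pos (by norm_num : (0 : ℝ) < 3)]
  refine hfin.trans ?_
  have h6 : 0 < H ^ 4 * t ^ 4 := by positivity
  have h7 : 0 ≤ δ * t ^ 3 := by positivity
  linarith

end Pool.Agent.H67.EF
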