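import Pool.Agent.H67.EF.Num

/-! # Effective families of powers (helper67), for MP_58ae59_nt -/

set_option autoImplicit false

namespace Pool.Agent.H67.EF

open Pool.Agent.H76.EE Pool.Agent.H67.EE

/-- consequences of the lower bound for `b` -/
theorem size_b (H b : ℕ) (hH : 1 ≤ H)
    (hb : Real.exp (Real.exp ((4 * (H : ℝ)) ^ 61)) ≤ b) :
    10 ^ 36 * (H : ℝ) ^ 61 ≤ Real.log b ∧ 0 < (b : ℝ) ∧
    20 * (H : ℝ) ^ 5 * (1 / (b : ℝ)) ≤ 1 / (Real.log b) ^ 5 := by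
  have hh : (1 : ℝ) ≤ H := by exact_mod_cast hH
  obtain ⟨h, hhd⟩ : ∃ h : ℝ, h = H := ⟨_, rfl⟩
  rw [← hhd] at hh hb ⊢
  have hb0 : 0 < (b : ℝ) := lt_of_lt_of_le (Real.exp_pos _) hb
  have h61 : 1 ≤ h ^ 61 := one_le_pow₀ hh
  have hl1 : Real.exp ((4 * h) ^ 61) ≤ Real.log b := (Real.le_log_iff_exp_le hb0).2 hb
  have hl2 : 10 ^ 36 * h ^ 61 ≤ Real.log b := by
    have h1 := Real.add_one_le_exp ((4 * h) ^ 61)
    have h2 : (4 * h) ^ 61 = 4 ^ 61 * h ^ 61 := by ring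
    have h3 : (10 : ℝ) ^ 36 * h ^ 61 ≤ 4 ^ 61 * h ^ 61 := by
      apply mul_le_mul_of_nonneg_right (by norm_num) (by positivity)
    linarith
  refine ⟨hl2, hb0, ?_⟩
  obtain ⟨l, hl⟩ : ∃ l : ℝ, l = Real.log b := ⟨_, rfl⟩
  rw [← hl] at hl2 ⊢
  have hl0 : 0 < l := by
    have : (0 : ℝ) < 10 ^ 36 * h ^ 61 := by positivity
    linarith
  have hbl : l ^ 6 / 720 ≤ b := by
    have h1 := Real.pow_div_factorial_le_exp l hl0.le 6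
    rw [hl, Real.exp_log hb0, ← hl] at h1
    have h2 : ((Nat.factorial 6 : ℕ) : ℝ) = 720 := by norm_num [Nat.factorial]
    rw [h2] at h1
    exact h1
  have hl5 : 0 < l ^ 5 := by positivity
  rw [mul_one_div, div_le_div_iff₀ hb0 hl5, one_mul]
  refine le_trans ?_ hbl
  rw [le_div_iff₀ (by norm_num)]
  have h1 : 14400 * h ^ 5 ≤ l := by
    have h2 : h ^ 5 ≤ h ^ 61 := pow_le_pow_right₀ hh (by norm_num)
    have h3 : 0 < h ^ 61 := by positivity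
    have h4 : 14400 * h ^ 61 ≤ 10 ^ 36 * h ^ 61 := by
      apply mul_le_mul_of_nonneg_right (by norm_num) h3.le
    linarith
  have h2 : 14400 * h ^ 5 * l ^ 5 ≤ l * l ^ 5 := mul_le_mul_of_nonneg_right h1 hl5.le
  have h3 : l * l ^ 5 = l ^ 6 := by ring
  linarith

theorem alpha_le (H k : ℕ) (a₁ a₂ a₃ : ℤ) (hH : 1 ≤ H) (ha₁ : |a₁| ≤ H) (ha₂ : |a₂| ≤ H)
    (ha₃ : |a₃| ≤ H) (hkH : k ≤ H) :
    ((k : ℤ) ^ 2 * (12 * a₁ * a₃ - 12 * a₂ ^ 2 + a₁ ^ 4)).natAbs ≤ 25 * H ^ 6 := by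
  have hh : (1 : ℤ) ≤ H := by exact_mod_cast hH
  have h24 : (H : ℤ) ^ 2 ≤ (H : ℤ) ^ 4 := pow_le_pow_right₀ hh (by norm_num)
  have m3 : |a₁ * a₃| ≤ (H : ℤ) ^ 2 := by
    rw [abs_mul, sq]
    exact mul_le_mul ha₁ ha₃ (abs_nonneg _) (by positivity)
  have m2 : a₂ ^ 2 ≤ (H : ℤ) ^ 2 := by
    rw [← sq_abs]; exact pow_le_pow_left₀ (abs_nonneg _) ha₂ 2
  have m2' := sq_nonneg a₂
  have m4 : a₁ ^ 4 ≤ (H : ℤ) ^ 4 := by
    have h1 : a₁ ^ 4 = |a₁| ^ 4 := by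
      have : (4 : ℕ) = 2 * 2 := rfl
      rw [this, pow_mul, pow_mul, sq_abs]
    rw [h1]; exact pow_le_pow_left₀ (abs_nonneg _) ha₁ 4
  have m4' : 0 ≤ a₁ ^ 4 := by positivity
  have hin : |12 * a₁ * a₃ - 12 * a₂ ^ 2 + a₁ ^ 4| ≤ 25 * (H : ℤ) ^ 4 := by
    have e : 12 * a₁ * a₃ = 12 * (a₁ * a₃) := by ring
    rw [e]
    rw [abs_le] at m3 ⊢
    constructor <;> linarith
  have hk : ((k : ℤ)) ^ 2 ≤ (H : ℤ) ^ 2 := by
    apply pow_le_pow_left₀ (by positivity)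
    exact_mod_cast hkH
  have hfin : |(k : ℤ) ^ 2 * (12 * a₁ * a₃ - 12 * a₂ ^ 2 + a₁ ^ 4)| ≤ 25 * (H : ℤ) ^ 6 := by
    rw [abs_mul, abs_of_nonneg (by positivity : 0 ≤ (k : ℤ) ^ 2)]
    calc (k : ℤ) ^ 2 * |12 * a₁ * a₃ - 12 * a₂ ^ 2 + a₁ ^ 4| ≤ (H : ℤ) ^ 2 * (25 * (H : ℤ) ^ 4) :=
          mul_le_mul hk hin (abs_nonneg _) (by positivity)
      _ = 25 * (H : ℤ) ^ 6 := by ring
  rw [← Int.natCast_natAbs] at hfin
  exact_mod_cast hfin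

theorem exists_sign (a : ℤ) (ha : a ≠ 0) :
    ∃ s : ℤ, (s = 1 ∨ s = -1) ∧ s * a = |a| := by
  rcases lt_or_gt_of_ne ha with h | h
  · exact ⟨-1, Or.inr rfl, by rw [abs_of_neg h]; ring⟩
  · exact ⟨1, Or.inl rfl, by rw [abs_of_pos h]; ring⟩

/-- the effective theorem -/
theorem effective (H b k : ℕ) (n a₁ a₂ a₃ : ℤ) (x : ℝ) (h₁ : a₁ ≠ 0) (ha₁ : |a₁| ≤ H)
    (ha₂ : |a₂| ≤ H) (ha₃ : |a₃| ≤ H) (hk : 1 ≤ k) (hkH : k ≤ H)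
    (hb : Real.exp (Real.exp ((4 * (H : ℝ)) ^ 61)) ≤ b)
    (hx : |x - (1 + (a₁ : ℝ) / b + (a₂ : ℝ) / b ^ 2 + (a₃ : ℝ) / b ^ 3)| ≤
      1 / ((b : ℝ) ^ 3 * (Real.log b) ^ 5)) :
    Real.exp (Real.exp 1) ^ k ≠ x ^ n := by
  intro heq
  have hH : 1 ≤ H := hk.trans hkH
  obtain ⟨hl, hb0, htδ⟩ := size_b H b hH hb
  have hh : (1 : ℝ) ≤ H := by exact_mod_cast hH
  obtain ⟨h, hhd⟩ : ∃ h : ℝ, h = H := ⟨_, rfl⟩
  rw [← hhd] at hh hl htδ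
  obtain ⟨l, hld⟩ : ∃ l : ℝ, l = Real.log b := ⟨_, rfl⟩
  rw [← hld] at hl htδ hx
  obtain ⟨t, htd⟩ : ∃ t : ℝ, t = 1 / (b : ℝ) := ⟨_, rfl⟩
  rw [← htd] at htδ
  have ht0 : 0 < t := by rw [htd]; positivity
  have htb : (b : ℝ) * t = 1 := by rw [htd]; field_simp
  obtain ⟨δ, hδd⟩ : ∃ δ : ℝ, δ = 1 / l ^ 5 := ⟨_, rfl⟩
  rw [← hδd] at htδ
  have h61 : 1 ≤ h ^ 61 := one_le_pow₀ hh
  have hl36 : (10 : ℝ) ^ 36 ≤ l := by
    refine le_trans ?_ hl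
    exact le_mul_of_one_le_right (by norm_num) h61
  have hl1 : 1 ≤ l := le_trans (by norm_num) hl36
  have hl0 : 0 < l := by linarith
  have hl5 : 1 ≤ l ^ 5 := one_le_pow₀ hl1
  have hδ0 : 0 < δ := by rw [hδd]; positivity
  have hδ1 : δ ≤ 1 := by rw [hδd, div_le_one (by positivity)]; exact hl5
  -- the coefficients
  have hA₁ : |(a₁ : ℝ)| ≤ h := by rw [hhd, ← Int.cast_abs]; exact_mod_cast ha₁
  have hA₂ : |(a₂ : ℝ)| ≤ h := by rw [hhd, ← Int.cast_abs]; exact_mod_cast ha₂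
  have hA₃ : |(a₃ : ℝ)| ≤ h := by rw [hhd, ← Int.cast_abs]; exact_mod_cast ha₃
  have hkr : (1 : ℝ) ≤ k := by exact_mod_cast hk
  have hkh : (k : ℝ) ≤ h := by rw [hhd]; exact_mod_cast hkH
  -- the sign
  obtain ⟨s, hs, hsa⟩ := exists_sign a₁ h₁
  obtain ⟨σ, hσ⟩ : ∃ σ : ℝ, σ = s := ⟨_, rfl⟩
  have hσ2 : σ * σ = 1 := by
    rcases hs with h | h <;> rw [hσ, h] <;> norm_num
  have hσabs : |σ| = 1 := by
    rcases hs with h | h <;> rw [hσ, h] <;> norm_num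
  have hσa : σ * a₁ = |(a₁ : ℝ)| := by
    rw [hσ, ← Int.cast_abs, ← hsa]; push_cast; ring
  have hσmul : ∀ y : ℝ, |σ * y| = |y| := by
    intro y; rw [abs_mul, hσabs, one_mul]
  have hc₁ : 1 ≤ σ * a₁ := by
    rw [hσa, ← Int.cast_abs]
    exact_mod_cast Int.one_le_abs h₁
  have hc₁' : σ * a₁ ≤ h := by rw [hσa]; exact hA₁
  -- the logarithm
  obtain ⟨w₀, hw₀⟩ : ∃ w₀ : ℝ, w₀ = x - (1 + (a₁ : ℝ) / b + (a₂ : ℝ) / b ^ 2 + (a₃ : ℝ) / b ^ 3) :=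
    ⟨_, rfl⟩
  have hw₀1 : |w₀| ≤ δ * t ^ 3 := by
    rw [hw₀]
    refine hx.trans (le_of_eq ?_)
    rw [hδd, htd]
    field_simp
  have hxe : x = 1 + ((a₁ : ℝ) * t + a₂ * t ^ 2 + a₃ * t ^ 3 + w₀) := by
    rw [hw₀, htd]
    ring
  have hlog := log_est h a₁ a₂ a₃ t w₀ δ hh hA₁ hA₂ hA₃ ht0 hδ0.le hδ1 htδ hw₀1
  rw [← hxe] at hlog
  obtain ⟨c₂, hc₂⟩ : ∃ c₂ : ℝ, c₂ = (a₂ : ℝ) - (a₁ : ℝ) ^ 2 / 2 := ⟨_, rfl⟩
  obtain ⟨c₃, hc₃⟩ : ∃ c₃ : ℝ, c₃ = (a₃ : ℝ) - (a₁ : ℝ) * a₂ + (a₁ : ℝ) ^ 3 / 3 := ⟨_, rfl⟩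
  obtain ⟨s₀, hs₀⟩ : ∃ s₀ : ℝ, s₀ = (a₁ : ℝ) * a₃ - (a₂ : ℝ) ^ 2 + (a₁ : ℝ) ^ 4 / 12 := ⟨_, rfl⟩
  obtain ⟨b₂, b₃, b₀⟩ := coef_bounds h a₁ a₂ a₃ hh hA₁ hA₂ hA₃
  rw [← hc₂] at b₂ hlog
  rw [← hc₃] at b₃ hlog
  rw [← hs₀] at b₀
  have hs₀c : s₀ = (σ * a₁) * (σ * c₃) - (σ * c₂) ^ 2 := by
    have h1 : (σ * a₁) * (σ * c₃) - (σ * c₂) ^ 2 = (σ * σ) * (a₁ * c₃ - c₂ ^ 2) := by ring
    rw [h1, hσ2, hs₀, hc₂, hc₃]
    ring
  obtain ⟨w, hwd⟩ : ∃ w : ℝ, w = Real.log x - ((a₁ : ℝ) * t + c₂ * t ^ 2 + c₃ * t ^ 3) := ⟨_, rfl⟩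
  rw [← hwd] at hlog
  have ht3 : 0 < t ^ 3 := by positivity
  obtain ⟨w', hw'⟩ : ∃ w' : ℝ, w' = σ * (w / t ^ 3) := ⟨_, rfl⟩
  have hw'1 : |w'| ≤ 2 * δ := by
    rw [hw', hσmul, abs_div, abs_of_pos ht3, div_le_iff₀ ht3]
    exact hlog
  have hww : σ * w = w' * t ^ 3 := by
    rw [hw', mul_assoc, div_mul_cancel₀ _ ht3.ne']
  have hlam : σ * Real.log x = t * (σ * a₁ + (σ * c₂) * t + (σ * c₃) * t ^ 2 + w' * t ^ 2) := by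
    have h1 : σ * Real.log x = σ * w + σ * ((a₁ : ℝ) * t + c₂ * t ^ 2 + c₃ * t ^ 3) := by
      rw [hwd]; ring
    rw [h1, hww]
    ring
  have hn : (k : ℝ) * e = (σ * n) * (σ * Real.log x) := by
    have h1 := congrArg Real.log heq
    rw [Real.log_pow, Real.log_zpow, Real.log_exp] at h1
    have h2 : (σ * n) * (σ * Real.log x) = (σ * σ) * (n * Real.log x) := by ring
    rw [h2, hσ2, one_mul]
    exact h1
  -- the approximation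
  obtain ⟨D, hD⟩ : ∃ D : ℝ, D = σ * ((a₁ : ℝ) * b - c₂) := ⟨_, rfl⟩
  have hDt : D * t = σ * a₁ - (σ * c₂) * t := by
    rw [hD]
    linear_combination (σ * (a₁ : ℝ)) * htb
  obtain ⟨hlam0, hmain⟩ := level_real h (σ * a₁) (σ * c₂) (σ * c₃) s₀ t w' δ (σ * Real.log x)
    (σ * n) k D hh hc₁ hc₁' (by rw [hσmul]; exact b₂) (by rw [hσmul]; exact b₃) b₀ hs₀c ht0 hδ0.le
    hδ1 htδ hw'1 hlam hn (by linarith) hDt
  have he0 : 0 < e := Real.exp_pos 1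
  have hn0 : 0 < s * n := by
    have h1 : 0 < (σ * n) * (σ * Real.log x) := by rw [← hn]; positivity
    have h2 : 0 < σ * (n : ℝ) := (mul_pos_iff_of_pos_right hlam0).1 h1
    rw [hσ] at h2
    exact_mod_cast h2
  obtain ⟨m, hm⟩ : ∃ m : ℕ, s * n = m := ⟨(s * n).toNat, (Int.toNat_of_nonneg hn0.le).symm⟩
  have hmr : (m : ℝ) = σ * n := by
    have h1 : ((m : ℤ) : ℝ) = ((s * n : ℤ) : ℝ) := by rw [hm]
    push_cast at h1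
    rw [hσ]
    exact h1
  -- the integers
  have h20 : 20 * h ^ 5 ≤ (b : ℝ) := by
    have h1 : 20 * h ^ 5 * t ≤ 1 := htδ.trans hδ1
    have h2 : 20 * h ^ 5 = (20 * h ^ 5 * t) * b := by
      have : (20 * h ^ 5 * t) * b = 20 * h ^ 5 * (b * t) := by ring
      rw [this, htb, mul_one]
    rw [h2]
    have h3 := mul_le_mul_of_nonneg_right h1 hb0.le
    linarith
  have hh2 : h ≤ h ^ 2 := by
    have : h ^ 1 ≤ h ^ 2 := pow_le_pow_right₀ hh (by norm_num)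
    simpa using this
  have hh25 : h ^ 2 ≤ h ^ 5 := pow_le_pow_right₀ hh (by norm_num)
  have hh0 : 0 < h := by linarith
  obtain ⟨q, hq⟩ : ∃ q : ℤ, q = (k : ℤ) * (s * (2 * a₁ * b - 2 * a₂ + a₁ ^ 2)) := ⟨_, rfl⟩
  have hqr : (q : ℝ) = 2 * k * D := by
    rw [hq, hD, hc₂, hσ]
    push_cast
    ring
  obtain ⟨r, hr⟩ : ∃ r : ℝ, r = σ * (-(2 * (a₂ : ℝ)) + (a₁ : ℝ) ^ 2) := ⟨_, rfl⟩
  have hr1 : |r| ≤ 3 * h ^ 2 := by
    rw [hr, hσmul]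
    refine (abs_add_le _ _).trans ?_
    rw [abs_neg, abs_mul, abs_of_pos (by norm_num : (0 : ℝ) < 2), abs_pow]
    have h1 : |(a₁ : ℝ)| ^ 2 ≤ h ^ 2 := pow_le_pow_left₀ (abs_nonneg _) hA₁ 2
    linarith
  have hqD : 2 * (k : ℝ) * D = k * (2 * (σ * a₁ * b) + r) := by
    rw [hD, hr, hc₂]; ring
  have hr2 := abs_le.1 hr1
  have hlow : (b : ℝ) ≤ 2 * (σ * a₁ * b) + r := by
    have h1 : 1 * (b : ℝ) ≤ σ * a₁ * b := mul_le_mul_of_nonneg_right hc₁ hb0.le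
    linarith
  have hqb : (b : ℝ) ≤ q := by
    rw [hqr, hqD]
    have h2 : 1 * (2 * (σ * a₁ * b) + r) ≤ k * (2 * (σ * a₁ * b) + r) :=
      mul_le_mul_of_nonneg_right hkr (by linarith)
    linarith
  have hqpos : 0 < q := by
    have : (0 : ℝ) < q := by linarith
    exact_mod_cast this
  obtain ⟨Q, hQ⟩ : ∃ Q : ℕ, q = Q := ⟨q.toNat, (Int.toNat_of_nonneg hqpos.le).symm⟩
  have hQr : (Q : ℝ) = 2 * k * D := by rw [← hqr, hQ]; push_cast; rfl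
  have hbQ : (b : ℝ) ≤ Q := by
    have h1 : (Q : ℝ) = q := by rw [hQ]; push_cast; rfl
    rw [h1]; exact hqb
  have hQ0 : (0 : ℝ) < Q := by linarith
  have hQ1 : 1 ≤ Q := by exact_mod_cast hQ0
  obtain ⟨P, hP⟩ : ∃ P : ℕ, P = 2 * m * a₁.natAbs ^ 2 := ⟨_, rfl⟩
  have hPr : (P : ℝ) = 2 * (σ * n) * (σ * a₁) ^ 2 := by
    rw [hP, ← hmr]
    push_cast
    congr 1
    rw [Nat.cast_natAbs, Int.cast_abs, hσa]
  have hQlog : Real.log Q ≤ 2 * l := by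
    have h1 : (Q : ℝ) ≤ 5 * h ^ 3 * b := by
      rw [hQr, hqD]
      have h3 : 2 * (σ * a₁ * b) + r ≤ 5 * h ^ 2 * b := by
        have e1 : σ * a₁ * b ≤ h * b := mul_le_mul_of_nonneg_right hc₁' hb0.le
        have e4 : h * b ≤ h ^ 2 * b := mul_le_mul_of_nonneg_right hh2 hb0.le
        have e5 : (1 : ℝ) ≤ b := by
          have h' : 0 < b := by exact_mod_cast hb0
          exact_mod_cast h'
        have e6 : h ^ 2 * 1 ≤ h ^ 2 * b := mul_le_mul_of_nonneg_left e5 (by positivity)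
        linarith
      calc (k : ℝ) * (2 * (σ * a₁ * b) + r) ≤ h * (5 * h ^ 2 * b) :=
            mul_le_mul hkh h3 (by linarith) hh0.le
        _ = 5 * h ^ 3 * b := by ring
    have h2 : Real.log Q ≤ Real.log (5 * h ^ 3 * b) := Real.log_le_log hQ0 h1
    rw [Real.log_mul (by positivity) hb0.ne', ← hld] at h2
    have h3 := Real.log_le_sub_one_of_pos (by positivity : 0 < 5 * h ^ 3)
    have h4 : 5 * h ^ 3 ≤ l := by
      have e1 : h ^ 3 ≤ h ^ 61 := pow_le_pow_right₀ hh (by norm_num)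
      have e2 : 5 * h ^ 61 ≤ 10 ^ 36 * h ^ 61 := by
        apply mul_le_mul_of_nonneg_right (by norm_num) (by positivity)
      linarith
    linarith
  have hQlog0 : 0 ≤ Real.log Q := Real.log_nonneg (by exact_mod_cast hQ1)
  -- the error
  obtain ⟨ε, hε⟩ : ∃ ε : ℝ, ε = 50 * (k : ℝ) ^ 2 * h * δ := ⟨_, rfl⟩
  rw [← hε, ← hQr, ← hPr] at hmain
  have hε1 : ε ≤ 50 * h ^ 3 / l ^ 5 := by
    rw [hε, hδd, mul_one_div]
    apply div_le_div_of_nonneg_right _ (by positivity)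
    have h1 : (k : ℝ) ^ 2 ≤ h ^ 2 := pow_le_pow_left₀ (by linarith) hkh 2
    have h2 : 50 * (k : ℝ) ^ 2 * h ≤ 50 * h ^ 2 * h := by gcongr
    refine h2.trans (le_of_eq ?_)
    ring
  have hε0 : 0 ≤ ε := by rw [hε]; positivity
  obtain ⟨α, hα⟩ : ∃ α : ℕ, α = ((k : ℤ) ^ 2 * (12 * a₁ * a₃ - 12 * a₂ ^ 2 + a₁ ^ 4)).natAbs :=
    ⟨_, rfl⟩
  have hαH : α ≤ 25 * H ^ 6 := by rw [hα]; exact alpha_le H k a₁ a₂ a₃ hH ha₁ ha₂ ha₃ hkH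
  have hαr : (α : ℝ) ≤ 25 * h ^ 6 := by rw [hhd]; exact_mod_cast hαH
  obtain ⟨L, hL⟩ : ∃ L : ℝ, L = 4 * (k : ℝ) ^ 2 * e * s₀ := ⟨_, rfl⟩
  rw [← hL] at hmain
  have hLα : |L| = e * α / 3 := by
    have h1 : L = e * (((k : ℤ) ^ 2 * (12 * a₁ * a₃ - 12 * a₂ ^ 2 + a₁ ^ 4) : ℤ) : ℝ) / 3 := by
      rw [hL, hs₀]; push_cast; ring
    rw [h1, abs_div, abs_mul, abs_of_pos he0, abs_of_pos (by norm_num : (0 : ℝ) < 3), hα,
      Nat.cast_natAbs, Int.cast_abs]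
  rcases Nat.eq_zero_or_pos α with h0 | h0
  · -- the value zero
    have hL0 : L = 0 := by
      rw [h0] at hLα
      simpa using hLα
    rw [hL0, sub_zero] at hmain
    refine core_zero Q P hQ1 ε (by exact_mod_cast hmain) ?_
    have h1 : 104 * (1 + Real.log Q) * ε ≤ 104 * (3 * l) * (50 * h ^ 3 / l ^ 5) := by
      gcongr
      linarith
    refine lt_of_le_of_lt h1 ?_
    have h2 : 104 * (3 * l) * (50 * h ^ 3 / l ^ 5) = 15600 * h ^ 3 / l ^ 4 := by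
      field_simp
      ring
    rw [h2, div_lt_one (by positivity)]
    have e1 : h ^ 3 ≤ h ^ 61 := pow_le_pow_right₀ hh (by norm_num)
    have e2 : 15600 * h ^ 61 < 10 ^ 36 * h ^ 61 := by
      apply mul_lt_mul_of_pos_right (by norm_num) (by positivity)
    have e3 : l ≤ l ^ 4 := by
      have : l ^ 1 ≤ l ^ 4 := pow_le_pow_right₀ hl1 (by norm_num)
      simpa using this
    linarith
  · obtain ⟨n0, T, s1, s2, s3⟩ := sizes H α hH h0 hαH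
    refine core_pos α n0 T h0 s1 s2 Q P ?_ L hLα ε (by exact_mod_cast hmain) ?_
    · exact lt_of_lt_of_le s3 (hb.trans hbQ)
    · have h1 : 7000000 * (α : ℝ) ^ 5 * (3 * (1 + Real.log Q)) ^ 4 * ε ≤
          7000000 * (25 * h ^ 6) ^ 5 * (9 * l) ^ 4 * (50 * h ^ 3 / l ^ 5) := by
        have h3 : 3 * (1 + Real.log Q) ≤ 9 * l := by linarith
        gcongr
      refine h1.trans ?_
      have h2 : 7000000 * (25 * h ^ 6) ^ 5 * (9 * l) ^ 4 * (50 * h ^ 3 / l ^ 5) =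
          (7000000 * 25 ^ 5 * 9 ^ 4 * 50) * h ^ 33 / l := by
        field_simp
      rw [h2, div_le_one hl0]
      have e1 : h ^ 33 ≤ h ^ 61 := pow_le_pow_right₀ hh (by norm_num)
      have e2 : (7000000 * 25 ^ 5 * 9 ^ 4 * 50) * h ^ 61 ≤ 10 ^ 36 * h ^ 61 := by
        apply mul_le_mul_of_nonneg_right (by norm_num) (by positivity)
      have e3 : (7000000 * 25 ^ 5 * 9 ^ 4 * 50) * h ^ 33 ≤
        (7000000 * 25 ^ 5 * 9 ^ 4 * 50) * h ^ 61 := mul_le_mul_of_nonneg_left e1 (by norm_num)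
      linarith

end Pool.Agent.H67.EF
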