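import Pool.Agent.H67.EF.Level

/-! # Sizes (helper67), for MP_58ae59_nt -/

set_option autoImplicit false

namespace Pool.Agent.H67.EF

open Pool.Agent.H76.EE Pool.Agent.H67.EE

theorem size_n0 (h a : ℝ) (hh : 1 ≤ h) (ha1 : 1 ≤ a) (ha : a ≤ 25 * h ^ 6) :
    8 * (22 * a ^ 2) * (6 * (22 * a ^ 2) + 2) ^ 2 / (1 / (46800 * a ^ 4)) +
      4 * (6 * (22 * a ^ 2) + 2) ^ 2 ≤ 2 * 10 ^ 25 * h ^ 60 := by
  have ha0 : 0 < a := by linarith
  have hh0 : 0 < h := by linarith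
  have h12 : 1 ≤ h ^ 12 := one_le_pow₀ hh
  have e2 : a ^ 2 ≤ 625 * h ^ 12 := by
    have := pow_le_pow_left₀ ha0.le ha 2
    refine this.trans (le_of_eq ?_)
    ring
  have e4 : a ^ 4 ≤ 390625 * h ^ 24 := by
    have := pow_le_pow_left₀ ha0.le ha 4
    refine this.trans (le_of_eq ?_)
    ring
  have eR : 6 * (22 * a ^ 2) + 2 ≤ 82502 * h ^ 12 := by linarith
  have eR2 : (6 * (22 * a ^ 2) + 2) ^ 2 ≤ 6806580004 * h ^ 24 := by
    have := pow_le_pow_left₀ (by positivity) eR 2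
    refine this.trans (le_of_eq ?_)
    ring
  have h2460 : h ^ 24 ≤ h ^ 60 := pow_le_pow_right₀ hh (by norm_num)
  have hp : 0 < h ^ 60 := by positivity
  have h1 : 8 * (22 * a ^ 2) * (6 * (22 * a ^ 2) + 2) ^ 2 / (1 / (46800 * a ^ 4)) =
      8 * (22 * a ^ 2) * (6 * (22 * a ^ 2) + 2) ^ 2 * (46800 * a ^ 4) := by
    rw [div_div_eq_mul_div, div_one]
  have h2 : 8 * (22 * a ^ 2) * (6 * (22 * a ^ 2) + 2) ^ 2 * (46800 * a ^ 4) ≤
      8 * (22 * (625 * h ^ 12)) * (6806580004 * h ^ 24) * (46800 * (390625 * h ^ 24)) := by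
    gcongr
  have h3 : 8 * (22 * (625 * h ^ 12)) * (6806580004 * h ^ 24) * (46800 * (390625 * h ^ 24)) =
      (8 * (22 * 625) * 6806580004 * (46800 * 390625)) * h ^ 60 := by ring
  rw [h1]
  rw [h3] at h2
  refine (add_le_add h2 (mul_le_mul_of_nonneg_left (eR2.trans
    (mul_le_mul_of_nonneg_left h2460 (by norm_num))) (by norm_num))).trans ?_
  have h4 : (8 * (22 * 625) * 6806580004 * (46800 * 390625)) * h ^ 60 +
      4 * (6806580004 * h ^ 60) = (8 * (22 * 625) * 6806580004 * (46800 * 390625) +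
      4 * 6806580004) * h ^ 60 := by ring
  rw [h4]
  apply mul_le_mul_of_nonneg_right (by norm_num) hp.le

theorem logB (m : ℕ) (h : ℝ) (hh : 1 ≤ h) (hm : (m : ℝ) ≤ 10 ^ 26 * h ^ 60) :
    (B m : ℝ) ≤ Real.exp (6 * 10 ^ 28 * h ^ 61) := by
  have hh0 : 0 < h := by linarith
  have h60 : 1 ≤ h ^ 60 := one_le_pow₀ hh
  have hm0 : (0 : ℝ) ≤ m := Nat.cast_nonneg m
  have h1 : (B m : ℝ) ≤ (4 * m + 2) ^ m := by exact_mod_cast B_upper m
  refine h1.trans ?_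
  have h2 : (4 * (m : ℝ) + 2) ≤ (10 * h) ^ 60 := by
    have h3 : (10 * h) ^ 60 = 10 ^ 60 * h ^ 60 := by ring
    rw [h3]
    have h4 : (4 * (m : ℝ) + 2) ≤ (4 * 10 ^ 26 + 2) * h ^ 60 := by linarith
    refine h4.trans ?_
    apply mul_le_mul_of_nonneg_right (by norm_num) (by positivity)
  have h3 : Real.log (4 * (m : ℝ) + 2) ≤ 600 * h := by
    have h4 : Real.log (4 * (m : ℝ) + 2) ≤ Real.log ((10 * h) ^ 60) :=
      Real.log_le_log (by positivity) h2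
    rw [Real.log_pow] at h4
    have h5 := Real.log_le_sub_one_of_pos (by positivity : 0 < 10 * h)
    push_cast at h4
    linarith
  rw [← Real.exp_log (by positivity : 0 < (4 * (m : ℝ) + 2) ^ m), Real.log_pow]
  apply Real.exp_le_exp.2
  have h4 : (m : ℝ) * Real.log (4 * (m : ℝ) + 2) ≤ (10 ^ 26 * h ^ 60) * (600 * h) := by
    apply mul_le_mul hm h3 (Real.log_nonneg (by linarith)) (by positivity)
  refine h4.trans (le_of_eq ?_)
  ring

theorem sizes (H α : ℕ) (hH : 1 ≤ H) (hα : 1 ≤ α) (hαH : α ≤ 25 * H ^ 6) :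
    ∃ n0 T : ℕ, 8 * Mb α * (6 * Mb α + 2) ^ 2 / eta α + 4 * (6 * Mb α + 2) ^ 2 < n0 ∧
      104 * Mb α * (B (n0 + 3) : ℝ) ^ 2 < T ∧
      Mb α * (2 * T + 2) * B T < Real.exp (Real.exp ((4 * (H : ℝ)) ^ 61)) := by
  obtain ⟨h, hhd⟩ : ∃ h : ℝ, h = H := ⟨_, rfl⟩
  obtain ⟨a, had⟩ : ∃ a : ℝ, a = α := ⟨_, rfl⟩
  have hh : 1 ≤ h := by rw [hhd]; exact_mod_cast hH
  have ha1 : 1 ≤ a := by rw [had]; exact_mod_cast hα
  have ha : a ≤ 25 * h ^ 6 := by rw [had, hhd]; exact_mod_cast hαH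
  have hX := size_n0 h a hh ha1 ha
  have hMe : Mb α = 22 * a ^ 2 := by rw [had]; rfl
  have hηe : eta α = 1 / (46800 * a ^ 4) := by rw [had]; rfl
  rw [hηe, hMe]
  obtain ⟨X, hXd⟩ : ∃ X : ℝ, X = 8 * (22 * a ^ 2) * (6 * (22 * a ^ 2) + 2) ^ 2 /
    (1 / (46800 * a ^ 4)) + 4 * (6 * (22 * a ^ 2) + 2) ^ 2 := ⟨_, rfl⟩
  rw [← hXd] at hX ⊢
  have hX0 : 0 ≤ X := by rw [hXd]; positivity
  have h60 : 1 ≤ h ^ 60 := one_le_pow₀ hh
  have h61 : 1 ≤ h ^ 61 := one_le_pow₀ hh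
  have h12 : 1 ≤ h ^ 12 := one_le_pow₀ hh
  obtain ⟨n0, hn0⟩ : ∃ n0 : ℕ, n0 = ⌊X⌋₊ + 1 := ⟨_, rfl⟩
  have hn1 : X < n0 := by rw [hn0]; push_cast; exact Nat.lt_floor_add_one X
  have hn2 : ((n0 + 3 : ℕ) : ℝ) ≤ 10 ^ 26 * h ^ 60 := by
    have h1 := Nat.floor_le hX0
    rw [hn0]
    push_cast
    have h2 : (2 : ℝ) * 10 ^ 25 * h ^ 60 + 4 ≤ (2 * 10 ^ 25 + 4) * h ^ 60 := by linarith
    have h3 : (2 * 10 ^ 25 + 4) * h ^ 60 ≤ 10 ^ 26 * h ^ 60 := by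
      apply mul_le_mul_of_nonneg_right (by norm_num) (by positivity)
    linarith
  have hW := logB (n0 + 3) h hh hn2
  obtain ⟨W, hWd⟩ : ∃ W : ℝ, W = B (n0 + 3) := ⟨_, rfl⟩
  have hW1 : 1 ≤ W := by rw [hWd]; exact_mod_cast (B_pos (n0 + 3)).1
  rw [← hWd] at hW
  obtain ⟨M, hMd⟩ : ∃ M : ℝ, M = 22 * a ^ 2 := ⟨_, rfl⟩
  have hM1 : 1 ≤ M := by rw [hMd]; nlinarith
  have hM2 : M ≤ 13750 * h ^ 12 := by
    have h1 := pow_le_pow_left₀ (by linarith) ha 2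
    rw [hMd]
    have h2 : (25 * h ^ 6) ^ 2 = 625 * h ^ 12 := by ring
    rw [h2] at h1
    linarith
  obtain ⟨T, hTd⟩ : ∃ T : ℕ, T = ⌊104 * M * W ^ 2⌋₊ + 1 := ⟨_, rfl⟩
  have hW2 : 1 ≤ W ^ 2 := one_le_pow₀ hW1
  have hMW : 1 ≤ M * W ^ 2 := by nlinarith
  have hT1 : 104 * M * W ^ 2 < T := by rw [hTd]; push_cast; exact Nat.lt_floor_add_one _
  have hT2 : (T : ℝ) ≤ 105 * (M * W ^ 2) := by
    have h1 := Nat.floor_le (by positivity : 0 ≤ 104 * M * W ^ 2)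
    rw [hTd]
    push_cast
    linarith
  have hT3 : (T : ℝ) ≤ Real.exp (13 * 10 ^ 28 * h ^ 61) := by
    have h1 : W ^ 2 ≤ Real.exp (12 * 10 ^ 28 * h ^ 61) := by
      have h2 := pow_le_pow_left₀ (by linarith) hW 2
      rw [← Real.exp_nat_mul] at h2
      refine h2.trans (le_of_eq ?_)
      congr 1
      push_cast
      ring
    have h2 : 105 * M ≤ Real.exp (10 ^ 28 * h ^ 61) := by
      have h3 := Real.add_one_le_exp (10 ^ 28 * h ^ 61)
      have h4 : h ^ 12 ≤ h ^ 61 := pow_le_pow_right₀ hh (by norm_num)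
      have h5 : (105 * 13750) * h ^ 61 ≤ 10 ^ 28 * h ^ 61 := by
        apply mul_le_mul_of_nonneg_right (by norm_num) (by positivity)
      linarith
    have h3 : 13 * 10 ^ 28 * h ^ 61 = 10 ^ 28 * h ^ 61 + 12 * 10 ^ 28 * h ^ 61 := by ring
    rw [h3, Real.exp_add]
    refine hT2.trans ?_
    have h4 : 105 * (M * W ^ 2) = (105 * M) * W ^ 2 := by ring
    rw [h4]
    exact mul_le_mul h2 h1 (by positivity) (Real.exp_pos _).le
  have hTr1 : (1 : ℝ) ≤ T := by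
    have : M * W ^ 2 ≤ 104 * M * W ^ 2 := by nlinarith
    linarith
  have hMT : M ≤ T := by
    have : M ≤ M * W ^ 2 := le_mul_of_one_le_right (by linarith) hW2
    have h2 : M * W ^ 2 ≤ 104 * M * W ^ 2 := by nlinarith
    linarith
  refine ⟨n0, T, hn1, ?_, ?_⟩
  · rw [← hWd, ← hMd]; exact hT1
  · rw [← hMd, ← hhd]
    have hB : (B T : ℝ) ≤ (4 * T + 2) ^ T := by exact_mod_cast B_upper T
    have h1 : M * (2 * T + 2) * B T ≤ (4 * T + 2) * (4 * T + 2) * (4 * T + 2) ^ T := by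
      apply mul_le_mul _ hB (Bpos T).le (by positivity)
      apply mul_le_mul (by linarith) (by linarith) (by positivity) (by positivity)
    have h2 : (4 * (T : ℝ) + 2) * (4 * T + 2) * (4 * T + 2) ^ T = (4 * T + 2) ^ (T + 2) := by
      rw [pow_add]; ring
    rw [h2] at h1
    refine lt_of_le_of_lt h1 ?_
    rw [← Real.exp_log (by positivity : 0 < (4 * (T : ℝ) + 2) ^ (T + 2)), Real.log_pow]
    apply Real.exp_lt_exp.2
    have h3 := Real.log_le_sub_one_of_pos (by positivity : 0 < 4 * (T : ℝ) + 2)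
    have h3' : 0 ≤ Real.log (4 * (T : ℝ) + 2) := Real.log_nonneg (by linarith)
    have h4 : ((T + 2 : ℕ) : ℝ) * Real.log (4 * (T : ℝ) + 2) ≤ 15 * (T : ℝ) ^ 2 := by
      have h5 : ((T + 2 : ℕ) : ℝ) ≤ 3 * T := by push_cast; linarith
      have h6 : Real.log (4 * (T : ℝ) + 2) ≤ 5 * T := by linarith
      calc ((T + 2 : ℕ) : ℝ) * Real.log (4 * (T : ℝ) + 2) ≤ (3 * T) * (5 * T) :=
            mul_le_mul h5 h6 h3' (by positivity)
        _ = 15 * (T : ℝ) ^ 2 := by ring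
    refine lt_of_le_of_lt h4 ?_
    have h5 : (T : ℝ) ^ 2 ≤ Real.exp (26 * 10 ^ 28 * h ^ 61) := by
      have h6 := pow_le_pow_left₀ (by linarith) hT3 2
      rw [← Real.exp_nat_mul] at h6
      refine h6.trans (le_of_eq ?_)
      congr 1
      push_cast
      ring
    have h6 : (15 : ℝ) ≤ Real.exp 14 := by
      have := Real.add_one_le_exp (14 : ℝ)
      linarith
    have h7 : 15 * (T : ℝ) ^ 2 ≤ Real.exp (14 + 26 * 10 ^ 28 * h ^ 61) := by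
      rw [Real.exp_add]
      exact mul_le_mul h6 h5 (by positivity) (Real.exp_pos _).le
    refine lt_of_le_of_lt h7 ?_
    apply Real.exp_lt_exp.2
    have h8 : (4 * h) ^ 61 = 4 ^ 61 * h ^ 61 := by ring
    rw [h8]
    have h9 : 14 + 26 * 10 ^ 28 * h ^ 61 ≤ (14 + 26 * 10 ^ 28) * h ^ 61 := by linarith
    refine lt_of_le_of_lt h9 ?_
    apply mul_lt_mul_of_pos_right (by norm_num) (by positivity)

end Pool.Agent.H67.EF
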