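import Pool.Agent.H67.EF.Exp

/-! # The second level of the descent (helper67), for MP_58ae59_nt -/

set_option autoImplicit false

namespace Pool.Agent.H67.EF

open Pool.Agent.H76.EE Pool.Agent.H67.EE

/-- the gap used on both levels -/
noncomputable def eta (α : ℕ) : ℝ := 1 / (46800 * (α : ℝ) ^ 4)

/-- the bound of the values -/
noncomputable def Mb (α : ℕ) : ℝ := 22 * (α : ℝ) ^ 2

theorem gap_one (α : ℕ) (hα : 1 ≤ α) (L : ℝ) (hL : |L| = e * α / 3) (z : ℤ) :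
    eta α ≤ |(z : ℝ) / 2 - L| := by
  have hαr : (1 : ℝ) ≤ α := by exact_mod_cast hα
  have key : ∀ s : ℤ, 1 / (104 * ((2 * α : ℕ) : ℝ) ^ 2) ≤ |((2 * α : ℕ) : ℝ) * e - s| :=
    fun s => meas' (2 * α) (by omega) s
  have hgen : eta α ≤ 1 / (104 * ((2 * α : ℕ) : ℝ) ^ 2) / 6 := by
    unfold eta
    rw [div_div]
    apply one_div_le_one_div_of_le (by positivity)
    push_cast
    have h1 : (α : ℝ) ^ 2 ≤ (α : ℝ) ^ 4 := pow_le_pow_right₀ hαr (by norm_num)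
    nlinarith
  refine hgen.trans ?_
  rcases abs_choice L with h | h
  · have h1 := key (3 * z)
    have h2 : (z : ℝ) / 2 - L = -((((2 * α : ℕ) : ℝ) * e - ((3 * z : ℤ) : ℝ)) / 6) := by
      rw [← h, hL]; push_cast; ring
    rw [h2, abs_neg, abs_div, abs_of_pos (by norm_num : (0 : ℝ) < 6)]
    gcongr
  · have h1 := key (-(3 * z))
    have h2 : (z : ℝ) / 2 - L = (((2 * α : ℕ) : ℝ) * e - ((-(3 * z) : ℤ) : ℝ)) / 6 := by
      have h3 : L = -(e * α / 3) := by rw [← hL, h]; ring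
      rw [h3]; push_cast; ring
    rw [h2, abs_div, abs_of_pos (by norm_num : (0 : ℝ) < 6)]
    gcongr

theorem gap_two (α m : ℕ) (hα : 1 ≤ α) (hm : 1 ≤ m) (hm2 : m ≤ 15) (z : ℤ) :
    eta α ≤ |(z : ℝ) / 2 - (-(e * m * α ^ 2 / 2))| := by
  have hαr : (1 : ℝ) ≤ α := by exact_mod_cast hα
  have hmr : (1 : ℝ) ≤ m := by exact_mod_cast hm
  have hmr2 : (m : ℝ) ≤ 15 := by exact_mod_cast hm2
  have h1 := meas' (m * α ^ 2) (Nat.mul_pos hm (pow_pos hα 2)) (-z)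
  have h2 : (z : ℝ) / 2 - (-(e * m * α ^ 2 / 2)) =
      (((m * α ^ 2 : ℕ) : ℝ) * e - ((-z : ℤ) : ℝ)) / 2 := by
    push_cast; ring
  rw [h2, abs_div, abs_of_pos (by norm_num : (0 : ℝ) < 2)]
  have h3 : eta α ≤ 1 / (104 * ((m * α ^ 2 : ℕ) : ℝ) ^ 2) / 2 := by
    unfold eta
    rw [div_div]
    apply one_div_le_one_div_of_le (by positivity)
    push_cast
    have h4 : (m : ℝ) ^ 2 ≤ 225 := by nlinarith
    have h5 : 0 < (α : ℝ) ^ 4 := by positivity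
    calc 104 * ((m : ℝ) * α ^ 2) ^ 2 * 2 = 208 * (m : ℝ) ^ 2 * α ^ 4 := by ring
      _ ≤ 208 * 225 * (α : ℝ) ^ 4 := by gcongr
      _ = 46800 * (α : ℝ) ^ 4 := by ring
  refine h3.trans ?_
  gcongr

theorem parity (α n G A₁ B₁ A₂ B₂ G₁ G₂ : ℕ) (hα : 1 ≤ α) (hB₁ : Odd B₁)
    (hA₂ : Odd A₂)
    (h1 : α * (2 * n + 1) = G₁ * B₁) (h2 : 3 * G ^ 2 = G₁ * A₁)
    (h3 : α * (2 * (2 * n + 1) ^ 2 + 1) = G₂ * B₂) (h4 : 6 * G ^ 2 * (2 * n + 1) = G₂ * A₂) :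
    False := by
  have e1 : α * (2 * n + 1) * A₁ = 3 * G ^ 2 * B₁ := by rw [h1, h2]; ring
  have e2 : α * (2 * (2 * n + 1) ^ 2 + 1) * A₂ = 6 * G ^ 2 * (2 * n + 1) * B₂ := by
    rw [h3, h4]; ring
  have e3 : α * ((2 * (2 * n + 1) ^ 2 + 1) * A₂ * B₁) =
      α * (2 * ((2 * n + 1) ^ 2 * A₁ * B₂)) := by
    calc α * ((2 * (2 * n + 1) ^ 2 + 1) * A₂ * B₁) =
        (α * (2 * (2 * n + 1) ^ 2 + 1) * A₂) * B₁ := by ring
      _ = 2 * (2 * n + 1) * B₂ * (3 * G ^ 2 * B₁) := by rw [e2]; ring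
      _ = α * (2 * ((2 * n + 1) ^ 2 * A₁ * B₂)) := by rw [← e1]; ring
  have e4 := Nat.eq_of_mul_eq_mul_left hα e3
  have o1 : Odd ((2 * (2 * n + 1) ^ 2 + 1) * A₂ * B₁) :=
    Odd.mul (Odd.mul ⟨(2 * n + 1) ^ 2, rfl⟩ hA₂) hB₁
  rw [e4] at o1
  exact (Nat.not_even_iff_odd.2 o1) ⟨(2 * n + 1) ^ 2 * A₁ * B₂, by ring⟩

/-- the second level -/
theorem second (α n G n0 : ℕ) (hα : 1 ≤ α)
    (hn0 : 8 * Mb α * (6 * Mb α + 2) ^ 2 / eta α + 4 * (6 * Mb α + 2) ^ 2 < n0)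
    (hN : 104 * Mb α * (B (n0 + 3) : ℝ) ^ 2 < (2 * n + 1 : ℕ)) (ε : ℝ)
    (h : |(G : ℝ) ^ 2 * u n - e * α / 3| ≤ ε)
    (hε : 7000000 * (α : ℝ) ^ 5 * ((2 * n + 1 : ℕ) : ℝ) ^ 4 * ε ≤ 1) : False := by
  have he0 : 0 < e := Real.exp_pos 1
  have he3 : e < 2.7182818286 := Real.exp_one_lt_d9
  have hαr : (1 : ℝ) ≤ α := by exact_mod_cast hα
  have hα0 : (0 : ℝ) < α := by linarith
  have hα2 : (1 : ℝ) ≤ (α : ℝ) ^ 2 := one_le_pow₀ hαr
  have hα4 : (1 : ℝ) ≤ (α : ℝ) ^ 4 := one_le_pow₀ hαr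
  have hη : 0 < eta α := by unfold eta; positivity
  have hM1 : 1 ≤ Mb α := by unfold Mb; linarith
  obtain ⟨N, hNd⟩ : ∃ N : ℝ, N = ((2 * n + 1 : ℕ) : ℝ) := ⟨_, rfl⟩
  rw [← hNd] at hN hε
  -- `N` is large
  have hNbig : 100000000000 * (α : ℝ) ^ 10 ≤ N := by
    have h1 : 100000000000 * (α : ℝ) ^ 10 ≤ n0 := by
      refine le_trans ?_ hn0.le
      have h2 : 0 ≤ 4 * (6 * Mb α + 2) ^ 2 := by positivity
      have h3 : 100000000000 * (α : ℝ) ^ 10 ≤ 8 * Mb α * (6 * Mb α + 2) ^ 2 / eta α := by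
        unfold Mb eta
        have h4 : (132 * (α : ℝ) ^ 2) ^ 2 ≤ (6 * (22 * (α : ℝ) ^ 2) + 2) ^ 2 := by
          apply pow_le_pow_left₀ (by positivity)
          linarith
        rw [div_div_eq_mul_div, div_one]
        calc 100000000000 * (α : ℝ) ^ 10 ≤
            8 * (22 * (α : ℝ) ^ 2) * (132 * (α : ℝ) ^ 2) ^ 2 * (46800 * (α : ℝ) ^ 4) := by
              have h5 : 0 < (α : ℝ) ^ 10 := by positivity
              have h6 : 8 * (22 * (α : ℝ) ^ 2) * (132 * (α : ℝ) ^ 2) ^ 2 * (46800 * (α : ℝ) ^ 4) =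
                143518003200 * ((α : ℝ) ^ 10) := by ring
              rw [h6]
              linarith
          _ ≤ _ := by gcongr
      linarith
    have h2 : (n0 : ℝ) ≤ B (n0 + 3) := by
      have h3 : n0 + 2 < 6 ^ (n0 + 2) := Nat.lt_pow_self (by norm_num)
      have h4 : n0 ≤ B (n0 + 2 + 1) := le_trans (by omega) (B_six (n0 + 2))
      exact_mod_cast h4
    have hB1 : (1 : ℝ) ≤ B (n0 + 3) := by exact_mod_cast (B_pos (n0 + 3)).1
    have h3 : (B (n0 + 3) : ℝ) ≤ 104 * Mb α * (B (n0 + 3) : ℝ) ^ 2 := by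
      have h4 : (B (n0 + 3) : ℝ) ≤ (B (n0 + 3) : ℝ) ^ 2 := by nlinarith
      have h5 : 1 * (B (n0 + 3) : ℝ) ^ 2 ≤ 104 * Mb α * (B (n0 + 3) : ℝ) ^ 2 := by
        apply mul_le_mul_of_nonneg_right (by linarith) (by positivity)
      linarith
    linarith
  have hN1 : (1000 : ℝ) ≤ N := by
    have : (1 : ℝ) ≤ (α : ℝ) ^ 10 := one_le_pow₀ hαr
    linarith
  have hN0 : 0 < N := by linarith
  have hN2 : 1000 * N ≤ N ^ 2 := by rw [sq]; exact mul_le_mul_of_nonneg_right hN1 hN0.le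
  have hα6 : (α : ℝ) ^ 6 * 10000000000 ≤ N := by
    have h1 : (α : ℝ) ^ 6 ≤ (α : ℝ) ^ 10 := pow_le_pow_right₀ hαr (by norm_num)
    have h2 : 0 < (α : ℝ) ^ 6 := by positivity
    linarith
  -- the expansion
  have hn100 : 103 ≤ n := by
    by_contra hlt
    push Not at hlt
    have : N ≤ 300 := by
      rw [hNd]
      have : 2 * n + 1 ≤ 300 := by omega
      exact_mod_cast this
    linarith
  obtain ⟨k, hk⟩ : ∃ k, n = k + 3 := ⟨n - 3, by omega⟩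
  obtain ⟨d, hd0, hd1, hdu, hdN⟩ := u_exp k (by omega)
  rw [← hk] at hdu hdN
  have hNe : 2 * (n : ℝ) + 1 = N := by rw [hNd]; push_cast; ring
  rw [hNe] at hdu hdN
  have hup := u_pos n
  obtain ⟨τ, hτ⟩ : ∃ τ : ℝ, τ = (G : ℝ) ^ 2 * u n - e * α / 3 := ⟨_, rfl⟩
  rw [← hτ] at h
  have hε0 : 0 ≤ ε := (abs_nonneg _).trans h
  have hG2 : (G : ℝ) ^ 2 = (e * α / 3 + τ) * (N + d) := by
    rw [← hdu, hτ]
    field_simp
    ring
  obtain ⟨κ, hκ⟩ : ∃ κ : ℝ, κ = 2 * N * d - 1 - 15 / (4 * N ^ 2) := ⟨_, rfl⟩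
  rw [← hκ] at hdN
  have hNd2 : 2 * N * d - 1 = 15 / (4 * N ^ 2) + κ := by rw [hκ]; ring
  have hN4 : 0 < N ^ 4 := by positivity
  have hεN : 36 * α * N ^ 4 * ε ≤ eta α / 4 := by
    unfold eta
    rw [div_div, le_div_iff₀ (by positivity)]
    have h1 : 36 * (α : ℝ) * N ^ 4 * ε * (46800 * (α : ℝ) ^ 4 * 4) =
      6739200 * ((α : ℝ) ^ 5 * N ^ 4 * ε) := by ring
    have h2 : 7000000 * (α : ℝ) ^ 5 * N ^ 4 * ε = 7000000 * ((α : ℝ) ^ 5 * N ^ 4 * ε) := by ring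
    have h3 : 0 ≤ (α : ℝ) ^ 5 * N ^ 4 * ε := by positivity
    rw [h1]
    linarith
  have hαN : 20 * (α : ℝ) ^ 2 / N < eta α / 4 := by
    unfold eta
    rw [div_div, div_lt_div_iff₀ hN0 (by positivity)]
    have h1 : 20 * (α : ℝ) ^ 2 * (46800 * (α : ℝ) ^ 4 * 4) = 3744000 * (α : ℝ) ^ 6 := by ring
    have h2 : 0 < (α : ℝ) ^ 6 := by positivity
    rw [h1, one_mul]
    linarith
  have hκ2 : |κ| ≤ 2 / N ^ 3 := hdN
  have hNd_le : N + d ≤ 2 * N := by linarith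
  have hNd_pos : 0 < N + d := by linarith
  -- first approximation
  have v1 : |((α * (2 * n + 1) : ℕ) : ℝ) * ((α * (2 * n + 1) : ℕ) * e - (3 * G ^ 2 : ℕ)) -
      (-(e * (1 : ℕ) * α ^ 2 / 2))| < eta α / 2 := by
    have h1 : ((α * (2 * n + 1) : ℕ) : ℝ) * ((α * (2 * n + 1) : ℕ) * e - (3 * G ^ 2 : ℕ)) -
      (-(e * (1 : ℕ) * α ^ 2 / 2)) =
      -(α ^ 2 * e / 2 * (2 * N * d - 1)) - 3 * α * N * (N + d) * τ := by
      have h2 : ((α * (2 * n + 1) : ℕ) : ℝ) = α * N := by rw [hNd]; push_cast; ring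
      rw [h2]
      push_cast
      rw [hG2]
      ring
    rw [h1, hNd2]
    refine lt_of_le_of_lt (abs_sub _ _) ?_
    rw [abs_neg]
    have h3 : |(α : ℝ) ^ 2 * e / 2 * (15 / (4 * N ^ 2) + κ)| ≤ 20 * α ^ 2 / N := by
      rw [abs_mul, abs_of_pos (by positivity : 0 < (α : ℝ) ^ 2 * e / 2)]
      have h4 : |15 / (4 * N ^ 2) + κ| ≤ 10 / N := by
        refine (abs_add_le _ _).trans ?_
        rw [abs_of_pos (by positivity : 0 < 15 / (4 * N ^ 2))]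
        have h5 : 15 / (4 * N ^ 2) ≤ 4 / N := by
          rw [div_le_div_iff₀ (by positivity) hN0]
          linarith
        have h6 : 2 / N ^ 3 ≤ 2 / N := by
          apply div_le_div_of_nonneg_left (by norm_num) hN0
          have : N ^ 1 ≤ N ^ 3 := pow_le_pow_right₀ (by linarith) (by norm_num)
          simpa using this
        have h7 : 4 / N + 2 / N ≤ 10 / N := by
          rw [← add_div]
          apply div_le_div_of_nonneg_right (by norm_num) hN0.le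
        linarith
      have h5 : (α : ℝ) ^ 2 * e / 2 * |15 / (4 * N ^ 2) + κ| ≤ (α ^ 2 * 4 / 2) * (10 / N) := by
        apply mul_le_mul _ h4 (abs_nonneg _) (by positivity)
        have : (α : ℝ) ^ 2 * e ≤ α ^ 2 * 4 := mul_le_mul_of_nonneg_left (by linarith) (by positivity)
        linarith
      refine h5.trans (le_of_eq ?_)
      ring
    have h4 : |3 * (α : ℝ) * N * (N + d) * τ| ≤ 36 * α * N ^ 4 * ε := by
      rw [abs_mul, abs_of_pos (by positivity : 0 < 3 * (α : ℝ) * N * (N + d))]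
      have h5 : 3 * (α : ℝ) * N * (N + d) ≤ 36 * α * N ^ 4 := by
        have h6 : 3 * (α : ℝ) * N * (N + d) ≤ 3 * α * N * (2 * N) :=
          mul_le_mul_of_nonneg_left hNd_le (by positivity)
        have h7 : N ^ 2 ≤ N ^ 4 := pow_le_pow_right₀ (by linarith) (by norm_num)
        have h8 : 6 * (α : ℝ) * N ^ 2 ≤ 36 * α * N ^ 4 := by
          apply mul_le_mul (by linarith) h7 (by positivity) (by positivity)
        have h9 : 3 * (α : ℝ) * N * (2 * N) = 6 * α * N ^ 2 := by ring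
        linarith
      exact mul_le_mul h5 h (abs_nonneg _) (by positivity)
    linarith
  -- second approximation
  have v2 : |((α * (2 * (2 * n + 1) ^ 2 + 1) : ℕ) : ℝ) *
      ((α * (2 * (2 * n + 1) ^ 2 + 1) : ℕ) * e - (6 * G ^ 2 * (2 * n + 1) : ℕ)) -
      (-(e * (15 : ℕ) * α ^ 2 / 2))| < eta α / 2 := by
    have h1 : ((α * (2 * (2 * n + 1) ^ 2 + 1) : ℕ) : ℝ) *
      ((α * (2 * (2 * n + 1) ^ 2 + 1) : ℕ) * e - (6 * G ^ 2 * (2 * n + 1) : ℕ)) -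
      (-(e * (15 : ℕ) * α ^ 2 / 2)) =
      -(α ^ 2 * e * (15 / (4 * N ^ 2) + (2 * N ^ 2 + 1) * κ)) -
        6 * α * N * (2 * N ^ 2 + 1) * (N + d) * τ := by
      have h2 : ((α * (2 * (2 * n + 1) ^ 2 + 1) : ℕ) : ℝ) = α * (2 * N ^ 2 + 1) := by
        rw [hNd]; push_cast; ring
      have h3 : ((6 * G ^ 2 * (2 * n + 1) : ℕ) : ℝ) = 6 * (G : ℝ) ^ 2 * N := by
        rw [hNd]; push_cast; ring
      rw [h2, h3, hG2]
      have h4 : (2 * N ^ 2 + 1) * (15 / (4 * N ^ 2) + κ) =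
        15 / 2 + (15 / (4 * N ^ 2) + (2 * N ^ 2 + 1) * κ) := by
        field_simp
        ring
      have h5 : 15 / (4 * N ^ 2) + (2 * N ^ 2 + 1) * κ =
        (2 * N ^ 2 + 1) * (2 * N * d - 1) - 15 / 2 := by
        rw [hNd2]; linarith
      rw [h5]
      push_cast
      ring
    rw [h1]
    refine lt_of_le_of_lt (abs_sub _ _) ?_
    rw [abs_neg]
    have h3 : |(α : ℝ) ^ 2 * e * (15 / (4 * N ^ 2) + (2 * N ^ 2 + 1) * κ)| ≤ 20 * α ^ 2 / N := by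
      rw [abs_mul, abs_of_pos (by positivity : 0 < (α : ℝ) ^ 2 * e)]
      have h4 : |15 / (4 * N ^ 2) + (2 * N ^ 2 + 1) * κ| ≤ 7 / N := by
        refine (abs_add_le _ _).trans ?_
        rw [abs_of_pos (by positivity : 0 < 15 / (4 * N ^ 2)), abs_mul,
          abs_of_pos (by positivity : 0 < 2 * N ^ 2 + 1)]
        have h5 : 15 / (4 * N ^ 2) ≤ 1 / N := by
          rw [div_le_div_iff₀ (by positivity) hN0]
          linarith
        have h6 : (2 * N ^ 2 + 1) * |κ| ≤ (3 * N ^ 2) * (2 / N ^ 3) := by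
          apply mul_le_mul _ hκ2 (abs_nonneg _) (by positivity)
          linarith
        have h7 : (3 * N ^ 2) * (2 / N ^ 3) = 6 / N := by
          field_simp
          ring
        have h8 : 1 / N + 6 / N = 7 / N := by rw [← add_div]; norm_num
        linarith
      have h5 : (α : ℝ) ^ 2 * e * |15 / (4 * N ^ 2) + (2 * N ^ 2 + 1) * κ| ≤
          (α ^ 2 * (20 / 7)) * (7 / N) := by
        apply mul_le_mul _ h4 (abs_nonneg _) (by positivity)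
        exact mul_le_mul_of_nonneg_left (by linarith) (by positivity)
      refine h5.trans (le_of_eq ?_)
      ring
    have h4 : |6 * (α : ℝ) * N * (2 * N ^ 2 + 1) * (N + d) * τ| ≤ 36 * α * N ^ 4 * ε := by
      rw [abs_mul, abs_of_pos (by positivity : 0 < 6 * (α : ℝ) * N * (2 * N ^ 2 + 1) * (N + d))]
      have h5 : 6 * (α : ℝ) * N * (2 * N ^ 2 + 1) * (N + d) ≤ 36 * α * N ^ 4 := by
        have h6 : 6 * (α : ℝ) * N * (2 * N ^ 2 + 1) * (N + d) ≤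
            6 * (α : ℝ) * N * (2 * N ^ 2 + 1) * (2 * N) :=
          mul_le_mul_of_nonneg_left hNd_le (by positivity)
        have h7 : 6 * (α : ℝ) * N * (2 * N ^ 2 + 1) * (2 * N) = 12 * α * N ^ 2 * (2 * N ^ 2 + 1) := by
          ring
        have h8 : 12 * (α : ℝ) * N ^ 2 * (2 * N ^ 2 + 1) ≤ 12 * α * N ^ 2 * (3 * N ^ 2) := by
          apply mul_le_mul_of_nonneg_left _ (by positivity)
          linarith
        calc 6 * (α : ℝ) * N * (2 * N ^ 2 + 1) * (N + d) ≤ 12 * α * N ^ 2 * (3 * N ^ 2) := by linarith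
          _ = 36 * α * N ^ 4 := by ring
      exact mul_le_mul h5 h (abs_nonneg _) (by positivity)
    linarith
  -- the two values are bounded
  have hη1 : eta α ≤ 1 := by
    unfold eta
    rw [div_le_one (by positivity)]
    linarith
  have hval : ∀ (m : ℕ) (x : ℝ), 1 ≤ m → m ≤ 15 → |x - (-(e * m * α ^ 2 / 2))| < eta α / 2 →
      |x| ≤ Mb α := by
    intro m x hm1 hm2 hx
    have hmr : (m : ℝ) ≤ 15 := by exact_mod_cast hm2
    have h1 : |x| ≤ |x - (-(e * m * α ^ 2 / 2))| + |(-(e * m * α ^ 2 / 2))| := by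
      have := abs_add_le (x - (-(e * m * α ^ 2 / 2))) (-(e * m * α ^ 2 / 2))
      simpa using this
    have h2 : |(-(e * (m : ℝ) * (α : ℝ) ^ 2 / 2))| ≤ 2.72 * 15 * (α : ℝ) ^ 2 / 2 := by
      rw [abs_neg, abs_of_nonneg (by positivity)]
      have h3 : e * m ≤ 2.72 * 15 := mul_le_mul (by linarith) hmr (by positivity) (by norm_num)
      have h4 : e * m * (α : ℝ) ^ 2 ≤ 2.72 * 15 * (α : ℝ) ^ 2 :=
        mul_le_mul_of_nonneg_right h3 (by positivity)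
      linarith
    unfold Mb
    linarith
  have hαN1 : N ≤ ((α * (2 * n + 1) : ℕ) : ℝ) := by
    push_cast
    rw [hNe]
    exact le_mul_of_one_le_left hN0.le hαr
  have hαN2 : N ≤ ((α * (2 * (2 * n + 1) ^ 2 + 1) : ℕ) : ℝ) := by
    push_cast
    rw [hNe]
    have h1 : N ≤ 2 * N ^ 2 + 1 := by linarith
    exact h1.trans (le_mul_of_one_le_left (by positivity) hαr)
  obtain ⟨m₁, G₁, hQ₁, hP₁⟩ := base (-(e * (1 : ℕ) * α ^ 2 / 2)) (Mb α) (6 * Mb α + 2) (eta α) n0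
    hM1 rfl hη (gap_two α 1 hα le_rfl (by norm_num)) hn0 (α * (2 * n + 1)) (3 * G ^ 2)
    (lt_of_lt_of_le hN hαN1) (hval 1 _ le_rfl (by norm_num) v1) v1
  obtain ⟨m₂, G₂, hQ₂, hP₂⟩ := base (-(e * (15 : ℕ) * α ^ 2 / 2)) (Mb α) (6 * Mb α + 2) (eta α) n0
    hM1 rfl hη (gap_two α 15 hα (by norm_num) le_rfl) hn0 (α * (2 * (2 * n + 1) ^ 2 + 1))
    (6 * G ^ 2 * (2 * n + 1))
    (lt_of_lt_of_le hN hαN2) (hval 15 _ (by norm_num) le_rfl v2) v2
  exact parity α n G (A m₁) (B m₁) (A m₂) (B m₂) G₁ G₂ hα (odd_AB m₁).1.2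
    (odd_AB m₂).1.1 hQ₁ hP₁ hQ₂ hP₂

end Pool.Agent.H67.EF
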